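import Pool.Agent.TH760.Defs
import Pool.Agent.H348R6.HLBasic

/-!
# Auxiliary notions for the ZFC part
-/

set_option autoImplicit false

universe u

namespace Pool.Agent.TH760

open Cardinal Ordinal Set
open Pool.Agent.H348R6.HLT (Node IsTree level ImmSucc)

/-- `ζ` is closed under `g`. -/
def ClosedPt (g : Ordinal.{u} → Ordinal.{u}) (ζ : Ordinal.{u}) : Prop := ∀ η < ζ, g η < ζ

/-- Chains of nodes of length at most `ζ` are below a node of length `ζ`. -/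
def Above (κ : Cardinal.{u}) : Prop := ∀ {T : Set Node.{u}}, KTree κ T → ∀ {b : Set Node.{u}},
    b ⊆ T → IsChain (· ≤ ·) b → ∀ {ζ : Ordinal.{u}}, ζ < κ.ord → (∀ x ∈ b, x.len ≤ ζ) →
    ∃ y ∈ T, y.len = ζ ∧ ∀ x ∈ b, x ≤ y

/-- The nodes of the tree `T` can be coded by binary relations on the ordinals: `Ψ x ζ` is the node
of length `ζ` coded by `x`. -/
def Coding (κ : Cardinal.{u}) (T : Set Node.{u}) : Prop :=
    ∃ (g : Ordinal.{u} → Ordinal.{u})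
      (Ψ : (Ordinal.{u} → Ordinal.{u} → Prop) → Ordinal.{u} → Node.{u}),
      (∀ ζ < κ.ord, g ζ < κ.ord) ∧
      (∀ x, ∀ ζ < κ.ord, Ψ x ζ ∈ level T ζ) ∧
      (∀ x ζ ζ', ζ ≤ ζ' → ζ' < κ.ord → Ψ x ζ ≤ Ψ x ζ') ∧
      (∀ ζ < κ.ord, ClosedPt g ζ → ∀ x y, (∀ η < ζ, ∀ θ < ζ, (x η θ ↔ y η θ)) →
        Ψ x ζ = Ψ y ζ) ∧
      ∀ ζ ζ', ζ ≤ ζ' → ζ' < κ.ord → ClosedPt g ζ → ClosedPt g ζ' → ∀ x, ∀ s ∈ level T ζ',
        Ψ x ζ ≤ s → ∃ y, (∀ η < ζ, ∀ θ < ζ, (y η θ ↔ x η θ)) ∧ Ψ y ζ' = s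

/-- Above some tuple `t` of nodes of a level `ζ`, for each level `ξ` one can extend all nodes of
the trees of level `ξ` to nodes of some level `η` such that all tuples of extensions of nodes above
`t` have colour `j`. -/
def Good (κ : Cardinal.{u}) {d : ℕ} (T : Fin d → Set Node.{u}) (c : (Fin d → Node.{u}) → Ordinal.{u})
    (j : Ordinal.{u}) : Prop :=
  ∃ ζ < κ.ord, ∃ t : Fin d → Node.{u}, (∀ i, t i ∈ level (T i) ζ) ∧
    ∀ ξ < κ.ord, ζ ≤ ξ → ∃ η < κ.ord, ξ ≤ η ∧ ∃ F : Fin d → Node.{u} → Node.{u},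
      (∀ i, ∀ s ∈ level (T i) ξ, F i s ∈ level (T i) η ∧ s ≤ F i s) ∧
      ∀ s : Fin d → Node.{u}, (∀ i, s i ∈ level (T i) ξ ∧ t i ≤ s i) → c (fun i => F i (s i)) = j

/-- The delta system lemma for functions. -/
def DeltaSystem : Prop := ∀ {Λ M X : Type}, ℵ₀ ≤ #M → 2 ^ #M < #Λ → ∀ e : Λ → M → X,
    ∃ (r : M → Option X) (H : Set Λ), 2 ^ #M < #H ∧
      (∀ δ ∈ H, ∀ m x, r m = some x → e δ m = x) ∧
      (∀ δ ∈ H, ∀ δ' ∈ H, δ ≠ δ' → ∀ m m', r m = none → r m' = none → e δ m ≠ e δ' m') ∧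
      (∀ δ ∈ H, ∀ m m' x, r m = none → r m' = some x → e δ m ≠ x)

end Pool.Agent.TH760
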