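import Mathlib

/-!
# Towers of exponentials and inaccessible elements of a well-ordered set
-/

set_option autoImplicit false

namespace Pool.Agent.TH760

open Cardinal Set

/-- Iterated exponentials. -/
noncomputable def tow (μ : Cardinal.{0}) : ℕ → Cardinal.{0}
  | 0 => μ
  | n + 1 => 2 ^ tow μ n

/-- The set of the predecessors of `b` has inaccessible cardinality, and `b` is the least element
with this number of predecessors. -/
def Inac {K : Type} [LinearOrder K] (b : K) : Prop :=
  (#(Iio b)).IsInaccessible ∧ ∀ a < b, #(Iio a) < #(Iio b)

end Pool.Agent.TH760
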