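import Pool.Agent.TH760.Base
import Pool.Agent.W868.KP.Comb2

/-!
# The product of Cohen forcings with Easton supports
-/

set_option autoImplicit false
set_option linter.unusedSectionVars false

namespace Pool.Agent.TH760

open Cardinal Set Filter
open Pool.Agent.W868.KP (Normal KClosed meet diag compl regular)

section inac

variable {K : Type} [LinearOrder K] {b : K}

theorem Inac.reg (hb : Inac b) : (#(Iio b)).IsRegular := hb.1.isRegular

theorem Inac.inf (hb : Inac b) : ℵ₀ ≤ #(Iio b) := hb.1.aleph0_lt.le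

theorem Inac.iic (hb : Inac b) {a : K} (ha : a < b) : #(Iic a) < #(Iio b) := by
  have h : (Iic a : Set K) ⊆ Iio a ∪ {a} := by
    intro x hx
    rcases lt_or_eq_of_le (Set.mem_Iic.1 hx) with h | h
    · exact Or.inl h
    · exact Or.inr h
  refine lt_of_le_of_lt (Cardinal.mk_le_mk_of_subset h) ?_
  refine lt_of_le_of_lt (Cardinal.mk_union_le _ _) ?_
  refine Cardinal.add_lt_of_lt hb.inf (hb.2 a ha) ?_
  rw [Cardinal.mk_singleton]
  exact Cardinal.one_lt_aleph0.trans_le hb.inf

theorem Inac.bdd (hb : Inac b) {S : Set K} (hS : ∀ x ∈ S, x < b) (hc : #S < #(Iio b)) :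
    ∃ a < b, ∀ x ∈ S, x < a := by
  by_contra h
  push Not at h
  have h1 : (Iio b : Set K) ⊆ ⋃ x : S, Iic (x : K) := by
    intro a ha
    obtain ⟨x, hx, hax⟩ := h a ha
    exact mem_iUnion.2 ⟨⟨x, hx⟩, hax⟩
  have h2 : #(⋃ x : S, Iic (x : K)) < #(Iio b) := by
    rw [card_iUnion_lt_iff_forall_of_isRegular hb.reg hc]
    exact fun x => hb.iic (hS x x.2)
  exact absurd (Cardinal.mk_le_mk_of_subset h1) (not_le.2 h2)

theorem Inac.gt (hb : Inac b) {a : K} (ha : a < b) : ∃ c < b, a < c := by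
  obtain ⟨c, hc, h⟩ := hb.bdd (S := {a}) (by rintro x rfl; exact ha) (by
    rw [Cardinal.mk_singleton]
    exact Cardinal.one_lt_aleph0.trans_le hb.inf)
  exact ⟨c, hc, h a rfl⟩

theorem Inac.pow (hb : Inac b) {S : Type} (h : #S < #(Iio b)) : #(Set S) < #(Iio b) := by
  rw [Cardinal.mk_set]
  exact hb.1.isStrongPrelimit h

theorem Inac.prod (hb : Inac b) {S T : Type} (h : #S < #(Iio b)) (h' : #T < #(Iio b)) :
    #(S × T) < #(Iio b) := by
  rw [Cardinal.mk_prod, Cardinal.lift_id, Cardinal.lift_id]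
  exact Cardinal.mul_lt_of_lt hb.inf h h'

theorem Inac.union (hb : Inac b) {T : Type} {S S' : Set T} (h : #S < #(Iio b))
    (h' : #S' < #(Iio b)) : #(S ∪ S' : Set T) < #(Iio b) :=
  (Cardinal.mk_union_le _ _).trans_lt (Cardinal.add_lt_of_lt hb.inf h h')

theorem Inac.ne (hb : Inac b) : ∃ a, a < b := by
  have : Nonempty (Iio b) := by
    rw [← Cardinal.mk_ne_zero_iff]
    exact (Cardinal.aleph0_pos.trans_le hb.inf).ne'
  obtain ⟨a⟩ := this
  exact ⟨a, a.2⟩

end inac

/-- The indices: level, coordinate, and the two coordinates of the position. -/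
abbrev Ix (K : Type) : Type := K × K × K × K

/-- Conditions: partial functions giving for some levels `x.1` in `X`, coordinates below `ℓ x.1` and
pairs of elements below the level a value below the level, with fewer than `b` values at the levels
up to `b`, if `b` is inaccessible. -/
@[ext]
structure Cnd (K : Type) [LinearOrder K] (X : K → Prop) (ℓ : K → K) : Type where
  fn : Ix K → Option K
  ok : ∀ x v, fn x = some v →
    X x.1 ∧ x.2.1 < ℓ x.1 ∧ x.2.2.1 < x.1 ∧ x.2.2.2 < x.1 ∧ v < x.1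
  bd : ∃ a, ∀ x, fn x ≠ none → x.1 < a
  sm : ∀ b, Inac b → #({x | x.1 ≤ b ∧ fn x ≠ none} : Set (Ix K)) < #(Iio b)

namespace Cnd

variable {K : Type} [LinearOrder K] {X : K → Prop} {ℓ : K → K}

instance : Preorder (Cnd K X ℓ) where
  le p q := ∀ x v, q.fn x = some v → p.fn x = some v
  le_refl _ _ _ h := h
  le_trans _ _ _ h1 h2 x v h := h1 x v (h2 x v h)

theorem le_def {p q : Cnd K X ℓ} : p ≤ q ↔ ∀ x v, q.fn x = some v → p.fn x = some v := Iff.rfl

theorem ne_none_of_le {p q : Cnd K X ℓ} (h : p ≤ q) {x : Ix K} (hx : q.fn x ≠ none) :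
    p.fn x ≠ none := by
  obtain ⟨v, hv⟩ := Option.ne_none_iff_exists'.1 hx
  rw [h x v hv]
  exact Option.some_ne_none v

theorem ok' (p : Cnd K X ℓ) {x : Ix K} (hx : p.fn x ≠ none) :
    X x.1 ∧ x.2.1 < ℓ x.1 ∧ x.2.2.1 < x.1 ∧ x.2.2.2 < x.1 := by
  obtain ⟨v, hv⟩ := Option.ne_none_iff_exists'.1 hx
  obtain ⟨h1, h2, h3, h4, -⟩ := p.ok x v hv
  exact ⟨h1, h2, h3, h4⟩

/-- The empty condition. -/
def empty [Nonempty K] : Cnd K X ℓ where
  fn _ := none
  ok _ _ h := by cases h
  bd := ⟨Classical.arbitrary K, fun x h => absurd rfl h⟩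
  sm b hb := by
    have : ({x | x.1 ≤ b ∧ (none : Option K) ≠ none} : Set (Ix K)) = ∅ := by
      ext x
      simp
    rw [this, Cardinal.mk_eq_zero]
    exact Cardinal.aleph0_pos.trans_le hb.inf

instance [Nonempty K] : OrderTop (Cnd K X ℓ) where
  top := empty
  le_top _ _ _ h := by cases h

theorem top_apply [Nonempty K] (x : Ix K) : (⊤ : Cnd K X ℓ).fn x = none := rfl

/-- Levels at most `a`. -/
def Low (a : K) (p : Cnd K X ℓ) : Prop := ∀ x, p.fn x ≠ none → x.1 ≤ a

/-- Levels above `a`. -/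
def Hi (a : K) (p : Cnd K X ℓ) : Prop := ∀ x, p.fn x ≠ none → a < x.1

/-- Restriction of a condition. -/
def restr (S : Ix K → Prop) [DecidablePred S] (p : Cnd K X ℓ) : Cnd K X ℓ where
  fn x := if S x then p.fn x else none
  ok x v h := by
    by_cases hS : S x
    · rw [if_pos hS] at h
      exact p.ok x v h
    · rw [if_neg hS] at h
      cases h
  bd := by
    obtain ⟨a, ha⟩ := p.bd
    refine ⟨a, fun x hx => ha x fun h => hx ?_⟩
    by_cases hS : S x
    · rw [if_pos hS, h]
    · rw [if_neg hS]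
  sm b hb := by
    refine lt_of_le_of_lt (Cardinal.mk_le_mk_of_subset ?_) (p.sm b hb)
    rintro x ⟨hx, hx'⟩
    refine ⟨hx, fun h => hx' ?_⟩
    by_cases hS : S x
    · rw [if_pos hS, h]
    · rw [if_neg hS]

theorem restr_of {S : Ix K → Prop} [DecidablePred S] {p : Cnd K X ℓ} {x : Ix K} (h : S x) :
    (restr S p).fn x = p.fn x := if_pos h

theorem restr_of_not {S : Ix K → Prop} [DecidablePred S] {p : Cnd K X ℓ} {x : Ix K}
    (h : ¬ S x) : (restr S p).fn x = none := if_neg h

theorem restr_ne {S : Ix K → Prop} [DecidablePred S] {p : Cnd K X ℓ} {x : Ix K}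
    (h : (restr S p).fn x ≠ none) : S x ∧ p.fn x ≠ none := by
  by_cases hS : S x
  · rw [restr_of hS] at h
    exact ⟨hS, h⟩
  · exact absurd (restr_of_not hS) h

theorem le_restr {S : Ix K → Prop} [DecidablePred S] {p : Cnd K X ℓ} : p ≤ restr S p := by
  intro x v h
  by_cases hx : S x
  · rwa [restr_of hx] at h
  · rw [restr_of_not hx] at h
    cases h

theorem restr_mono {S : Ix K → Prop} [DecidablePred S] {p q : Cnd K X ℓ} (h : p ≤ q) :
    restr S p ≤ restr S q := by
  intro x v hx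
  by_cases hS : S x
  · rw [restr_of hS] at hx ⊢
    exact h x v hx
  · rw [restr_of_not hS] at hx
    cases hx

/-- The union of two conditions (the first one has precedence). -/
def join (p q : Cnd K X ℓ) : Cnd K X ℓ where
  fn x := (p.fn x).or (q.fn x)
  ok x v h := by
    cases hp : p.fn x with
    | none =>
      rw [hp, Option.none_or] at h
      exact q.ok x v h
    | some w =>
      rw [hp, Option.some_or] at h
      cases h
      exact p.ok x _ hp
  bd := by
    obtain ⟨a, ha⟩ := p.bd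
    obtain ⟨c, hc⟩ := q.bd
    refine ⟨max a c, fun x hx => ?_⟩
    by_cases hp : p.fn x = none
    · refine lt_max_of_lt_right (hc x fun h => hx ?_)
      rw [hp, h, Option.none_or]
    · exact lt_max_of_lt_left (ha x hp)
  sm b hb := by
    refine lt_of_le_of_lt (Cardinal.mk_le_mk_of_subset ?_) (hb.union (p.sm b hb) (q.sm b hb))
    rintro x ⟨hx, hx'⟩
    by_cases hp : p.fn x = none
    · refine Or.inr ⟨hx, fun h => hx' ?_⟩
      rw [hp, h, Option.none_or]
    · exact Or.inl ⟨hx, hp⟩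

theorem join_left {p q : Cnd K X ℓ} {x : Ix K} {v : K} (h : p.fn x = some v) :
    (join p q).fn x = some v := by
  show (p.fn x).or (q.fn x) = some v
  rw [h, Option.some_or]

theorem join_right {p q : Cnd K X ℓ} {x : Ix K} (h : p.fn x = none) :
    (join p q).fn x = q.fn x := by
  show (p.fn x).or (q.fn x) = q.fn x
  rw [h, Option.none_or]

theorem join_ne {p q : Cnd K X ℓ} {x : Ix K} (h : (join p q).fn x ≠ none) :
    p.fn x ≠ none ∨ q.fn x ≠ none := by
  by_cases hp : p.fn x = none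
  · right
    rwa [join_right hp] at h
  · exact Or.inl hp

theorem join_le_left {p q : Cnd K X ℓ} : join p q ≤ p := fun _ _ h => join_left h

theorem join_le_right {p q : Cnd K X ℓ}
    (h : ∀ x v w, p.fn x = some v → q.fn x = some w → v = w) : join p q ≤ q := by
  intro x w hw
  cases hp : p.fn x with
  | none => rw [join_right hp]; exact hw
  | some v => rw [join_left hp, h x v w hp hw]

theorem le_join {p q r : Cnd K X ℓ} (h1 : r ≤ p) (h2 : r ≤ q) : r ≤ join p q := by
  intro x v h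
  cases hp : p.fn x with
  | none => rw [join_right hp] at h; exact h2 x v h
  | some w =>
    rw [join_left hp] at h
    cases h
    exact h1 x _ hp

theorem join_low_hi_right {a : K} {p q : Cnd K X ℓ} (hp : Low a p) (hq : Hi a q) :
    join p q ≤ q := by
  refine join_le_right fun x v w hv hw => ?_
  have h1 := hp x (by rw [hv]; exact Option.some_ne_none v)
  have h2 := hq x (by rw [hw]; exact Option.some_ne_none w)
  exact absurd h2 (not_lt.2 h1)

theorem join_mono {a : K} {p q p' q' : Cnd K X ℓ} (hp : p' ≤ p) (hq : q' ≤ q) (h1 : Low a p')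
    (h2 : Hi a q') : join p' q' ≤ join p q :=
  le_join (join_le_left.trans hp) ((join_low_hi_right h1 h2).trans hq)

/-- Upper bounds of chains of conditions. -/
theorem exists_sup {ι : Type} (D : Set ι) (s : ι → Cnd K X ℓ)
    (hs : ∀ i ∈ D, ∀ j ∈ D, s i ≤ s j ∨ s j ≤ s i)
    (hbd : ∃ a, ∀ i ∈ D, ∀ x, (s i).fn x ≠ none → x.1 < a)
    (hsm : ∀ b, Inac b → (∃ i ∈ D, ∃ x, x.1 ≤ b ∧ (s i).fn x ≠ none) → #ι < #(Iio b)) :
    ∃ u : Cnd K X ℓ, (∀ i ∈ D, u ≤ s i) ∧ ∀ x, u.fn x ≠ none → ∃ i ∈ D, (s i).fn x ≠ none := by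
  classical
  let fn : Ix K → Option K := fun x => if h : ∃ v, ∃ i ∈ D, (s i).fn x = some v
    then some h.choose else none
  have h1 : ∀ i ∈ D, ∀ x v, (s i).fn x = some v → fn x = some v := by
    intro i hi x v hv
    have h2 : ∃ v, ∃ i ∈ D, (s i).fn x = some v := ⟨v, i, hi, hv⟩
    obtain ⟨j, hj, hw⟩ := h2.choose_spec
    have h3 : fn x = some h2.choose := dif_pos h2
    rw [h3]
    rcases hs i hi j hj with hij | hij
    · have := hij x _ hw
      rw [hv] at this
      exact this.symm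
    · have := hij x _ hv
      rw [hw] at this
      exact this
  have h2 : ∀ x v, fn x = some v → ∃ i ∈ D, (s i).fn x = some v := by
    intro x v hv
    by_cases h : ∃ v, ∃ i ∈ D, (s i).fn x = some v
    · have h3 : fn x = some h.choose := dif_pos h
      rw [hv] at h3
      cases h3
      exact h.choose_spec
    · have h3 : fn x = none := dif_neg h
      rw [hv] at h3
      cases h3
  have h3 : ∀ x, fn x ≠ none → ∃ i ∈ D, (s i).fn x ≠ none := by
    intro x hx
    obtain ⟨v, hv⟩ := Option.ne_none_iff_exists'.1 hx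
    obtain ⟨i, hi, h⟩ := h2 x v hv
    exact ⟨i, hi, by rw [h]; exact Option.some_ne_none v⟩
  refine ⟨⟨fn, ?_, ?_, ?_⟩, h1, h3⟩
  · intro x v hv
    obtain ⟨i, -, h⟩ := h2 x v hv
    exact (s i).ok x v h
  · obtain ⟨a, ha⟩ := hbd
    refine ⟨a, fun x hx => ?_⟩
    obtain ⟨i, hi, h⟩ := h3 x hx
    exact ha i hi x h
  · intro b hb
    by_cases h : ∃ i ∈ D, ∃ x, x.1 ≤ b ∧ (s i).fn x ≠ none
    · have h4 := hsm b hb h
      have h5 : ({x | x.1 ≤ b ∧ fn x ≠ none} : Set (Ix K)) ⊆
          ⋃ i : ι, {x | x.1 ≤ b ∧ (s i).fn x ≠ none} := by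
        rintro x ⟨hx, hx'⟩
        obtain ⟨i, -, h⟩ := h3 x hx'
        exact mem_iUnion.2 ⟨i, hx, h⟩
      refine lt_of_le_of_lt (Cardinal.mk_le_mk_of_subset h5) ?_
      rw [card_iUnion_lt_iff_forall_of_isRegular hb.reg h4]
      exact fun i => (s i).sm b hb
    · have h5 : ({x | x.1 ≤ b ∧ fn x ≠ none} : Set (Ix K)) = ∅ := by
        rw [Set.eq_empty_iff_forall_notMem]
        rintro x ⟨hx, hx'⟩
        obtain ⟨i, hi, h'⟩ := h3 x hx'
        exact h ⟨i, hi, x, hx, h'⟩
      rw [h5, Cardinal.mk_eq_zero]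
      exact Cardinal.aleph0_pos.trans_le hb.inf

end Cnd

end Pool.Agent.TH760
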