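import Pool.Agent.TH760.Cond

/-!
# The ground model data; counting conditions
-/

set_option autoImplicit false
set_option linter.unusedSectionVars false

namespace Pool.Agent.TH760

open Cardinal Set Filter
open Pool.Agent.W868.KP (Normal KClosed meet diag compl regular)

/-- The data of the ground model. -/
structure Gd {K : Type} [LinearOrder K] (U : Ultrafilter K) (X : K → Prop) (ℓ : K → K) :
    Prop where
  nrm : Normal U
  inac : ∀ᶠ ξ in (U : Filter K), Inac ξ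
  small : ∀ a : K, #(Iio a) < #K
  small2 : ∀ a : K, #(Set (Iio a)) < #K
  X_inac : ∀ α, X α → Inac α
  X_null : ∀ᶠ ξ in (U : Filter K), ¬ X ξ
  X_clo : ∀ h : K → K, ∃ α, X α ∧ ∀ ν < α, h ν < α
  ell_lt : ∀ a b, Inac b → a < b → ℓ a < b
  ell_ge : ∀ a, a ≤ ℓ a
  ell_big : ∀ a n, tow #(Iio a) n < #(Iio (ℓ a))

section

variable {K : Type} [LinearOrder K] [WellFoundedLT K] {U : Ultrafilter K} {X : K → Prop}
  {ℓ : K → K} (G : Gd U X ℓ)

include G

theorem Gd.neBot : (U : Filter K).NeBot := U.neBot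

theorem Gd.nonempty : Nonempty K := by
  have := G.neBot
  exact Filter.nonempty_of_neBot (U : Filter K)

theorem Gd.inf : ℵ₀ ≤ #K := by
  have := G.neBot
  obtain ⟨b, hb⟩ := G.inac.exists
  exact hb.inf.trans (G.small b).le

/-- There are inaccessible elements above each element. -/
theorem Gd.exists_inac (a : K) : ∃ b, Inac b ∧ a < b := by
  have := G.neBot
  obtain ⟨b, hb, hab⟩ := (G.inac.and (G.nrm.large a)).exists
  exact ⟨b, hb, hab⟩

theorem Gd.ok_bd {a b : K} (hb : Inac b) (ha : a < b) :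
    ∃ c < b, a < c ∧ ∀ β ≤ a, ℓ β < c := by
  obtain ⟨c, hc, h⟩ := hb.bdd (S := ℓ '' Iic a ∪ {a}) (by
    rintro x (⟨β, hβ, rfl⟩ | rfl)
    · exact G.ell_lt β b hb (lt_of_le_of_lt hβ ha)
    · exact ha) (by
    refine hb.union ?_ ?_
    · exact Cardinal.mk_image_le.trans_lt (hb.iic ha)
    · rw [Cardinal.mk_singleton]
      exact Cardinal.one_lt_aleph0.trans_le hb.inf)
  exact ⟨c, hc, h a (Or.inr rfl), fun β hβ => h _ (Or.inl ⟨β, hβ, rfl⟩)⟩

/-- There are few conditions with levels at most `a`. -/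
theorem Gd.card_low {a b : K} (hb : Inac b) (ha : a < b) :
    #({p | Cnd.Low a p} : Set (Cnd K X ℓ)) < #(Iio b) := by
  obtain ⟨c, hcb, hac, hc⟩ := G.ok_bd hb ha
  have h1 : #(Iio c × Iio c × Iio c × Iio c × Iio c) < #(Iio b) := by
    have h := hb.2 c hcb
    exact hb.prod h (hb.prod h (hb.prod h (hb.prod h h)))
  refine lt_of_le_of_lt ?_ (hb.pow h1)
  let F : ({p | Cnd.Low a p} : Set (Cnd K X ℓ)) → Set (Iio c × Iio c × Iio c × Iio c × Iio c) :=
    fun p => {y | p.1.fn (y.1, y.2.1, y.2.2.1, y.2.2.2.1) = some (y.2.2.2.2 : K)}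
  refine Cardinal.mk_le_of_injective (f := F) ?_
  have key : ∀ p q : ({p | Cnd.Low a p} : Set (Cnd K X ℓ)), F p = F q → ∀ x v,
      p.1.fn x = some v → q.1.fn x = some v := by
    intro p q h x v hv
    obtain ⟨-, h2, h3, h4, h5⟩ := p.1.ok x v hv
    have h6 : x.1 ≤ a := p.2 x (by rw [hv]; exact Option.some_ne_none v)
    have h7 : x.1 < c := h6.trans_lt hac
    have h8 : ((⟨x.1, h7⟩, ⟨x.2.1, h2.trans (hc _ h6)⟩, ⟨x.2.2.1, h3.trans h7⟩,
        ⟨x.2.2.2, h4.trans h7⟩, ⟨v, h5.trans h7⟩) : Iio c × Iio c × Iio c × Iio c × Iio c) ∈ F p :=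
      hv
    rw [h] at h8
    exact h8
  intro p q h
  refine Subtype.ext (Cnd.ext (funext fun x => ?_))
  cases hp : p.1.fn x with
  | some v => exact (key p q h x v hp).symm
  | none =>
    cases hq : q.1.fn x with
    | none => rfl
    | some v =>
      rw [key q p h.symm x v hq] at hp
      cases hp

theorem low_of_lt {α : K} (hα : Inac α) (p : Cnd K X ℓ) (hp : ∀ x, p.fn x ≠ none → x.1 < α) :
    ∃ a < α, Cnd.Low a p := by
  obtain ⟨a, ha, h⟩ := hα.bdd (S := (fun x : Ix K => x.1) '' {x | x.1 ≤ α ∧ p.fn x ≠ none}) (by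
    rintro _ ⟨x, ⟨-, hx⟩, rfl⟩
    exact hp x hx) (Cardinal.mk_image_le.trans_lt (p.sm α hα))
  exact ⟨a, ha, fun x hx => (h _ ⟨x, ⟨(hp x hx).le, hx⟩, rfl⟩).le⟩

theorem Gd.card_lt {α : K} (hα : Inac α) :
    #({p | ∀ x, p.fn x ≠ none → x.1 < α} : Set (Cnd K X ℓ)) ≤ #(Iio α) := by
  have h1 : ({p | ∀ x, p.fn x ≠ none → x.1 < α} : Set (Cnd K X ℓ)) ⊆
      ⋃ a : Iio α, {p | Cnd.Low (a : K) p} := by
    intro p hp
    obtain ⟨a, ha, h⟩ := low_of_lt G hα p hp
    exact mem_iUnion.2 ⟨⟨a, ha⟩, h⟩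
  refine (Cardinal.mk_le_mk_of_subset h1).trans ?_
  refine (Cardinal.mk_iUnion_le _).trans ?_
  refine (mul_le_mul_right (ciSup_le' fun a => (G.card_low hα a.2).le) _).trans ?_
  rw [Cardinal.mul_eq_self hα.inf]

theorem Gd.card_cnd : #(Cnd K X ℓ) ≤ #K := by
  have h1 : (Set.univ : Set (Cnd K X ℓ)) ⊆ ⋃ a : K, {p | Cnd.Low a p} := by
    intro p _
    obtain ⟨a, ha⟩ := p.bd
    exact mem_iUnion.2 ⟨a, fun x hx => (ha x hx).le⟩
  rw [← Cardinal.mk_univ]
  refine (Cardinal.mk_le_mk_of_subset h1).trans ?_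
  refine (Cardinal.mk_iUnion_le _).trans ?_
  refine (mul_le_mul_right (ciSup_le' (a := #K) fun a => ?_) _).trans ?_
  · obtain ⟨b, hb, hab⟩ := G.exists_inac a
    exact (G.card_low hb hab).le.trans (G.small b).le
  · rw [Cardinal.mul_eq_self G.inf]

/-- For almost all `a`, a condition below `a` is bounded below `a`, so it is pressed down. -/
theorem Gd.press_cnd (s : K → Cnd K X ℓ)
    (h : ∀ᶠ a in (U : Filter K), ∀ x, (s a).fn x ≠ none → x.1 < a) :
    ∃ p, ∀ᶠ a in (U : Filter K), s a = p := by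
  classical
  have h1 : ∀ a, ∃ c, (∀ x, (s a).fn x ≠ none → x.1 < a) → Inac a → c < a ∧ Cnd.Low c (s a) := by
    intro a
    by_cases h : (∀ x, (s a).fn x ≠ none → x.1 < a) ∧ Inac a
    · obtain ⟨c, hc, h2⟩ := low_of_lt G h.2 (s a) h.1
      exact ⟨c, fun _ _ => ⟨hc, h2⟩⟩
    · exact ⟨a, fun h2 h3 => absurd ⟨h2, h3⟩ h⟩
  choose f hf using h1
  obtain ⟨c, hc⟩ := G.nrm.press f (by
    filter_upwards [h, G.inac] with a h2 h3 using (hf a h2 h3).1)
  have h2 : ∀ᶠ a in (U : Filter K), Cnd.Low c (s a) := by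
    filter_upwards [h, G.inac, hc] with a h2 h3 h4
    rw [← h4]
    exact (hf a h2 h3).2
  obtain ⟨b, hb, hcb⟩ := G.exists_inac c
  obtain ⟨e⟩ : Nonempty (({p | Cnd.Low c p} : Set (Cnd K X ℓ)) ↪ Iio b) :=
    (G.card_low hb hcb).le
  obtain ⟨k, hk⟩ := Pool.Agent.W868.KP.const G.nrm
    (f := fun a => if h : Cnd.Low c (s a) then (e ⟨s a, h⟩ : K) else a) (c := b) (by
      filter_upwards [h2] with a ha
      rw [dif_pos ha]
      exact (e _).2)
  have := G.neBot
  obtain ⟨a, ha, hak⟩ := (h2.and hk).exists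
  refine ⟨s a, ?_⟩
  filter_upwards [h2, hk] with a' ha' hak'
  rw [dif_pos ha] at hak
  rw [dif_pos ha'] at hak'
  have h3 := e.injective (Subtype.ext (hak'.trans hak.symm))
  exact congrArg Subtype.val h3

/-- A set of size at most `K` is enumerated by `K`. -/
theorem Gd.exists_enum {I : Type} [Nonempty I] (h : #I ≤ #K) : ∃ f : K → I, f.Surjective := by
  obtain ⟨e⟩ := h
  exact ⟨Function.invFun e, Function.invFun_surjective e.injective⟩

end

end Pool.Agent.TH760
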