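import Pool.Agent.H348R6.HLDefs
import Pool.Agent.Helper669.Forcing

/-!
# The Halpern–Läuchli statement at a measurable cardinal: definitions

The first part has the notions of the question. The second part has the hypothesis of the ZFC
theorem, and the third part its translation into the forcing language.
-/

set_option autoImplicit false

universe u

namespace Pool.Agent.TH760

open Cardinal Ordinal Set
open Pool.Agent.H348R6.HLT (Node IsTree level ImmSucc)
open Pool.Agent.Helper669.Forcing

section Notions

/-- `κ` is a measurable cardinal: it is uncountable, and there is a nonprincipal ultrafilter on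
`κ` closed under intersections of fewer than `κ` of its members. -/
def IsMeasurable (κ : Cardinal.{u}) : Prop :=
  ℵ₀ < κ ∧ ∃ U : Ultrafilter κ.ord.ToType, (∀ x, {x} ∉ U) ∧
    ∀ F : Set (Set κ.ord.ToType), #F < κ → (∀ X ∈ F, X ∈ U) → ⋂₀ F ∈ U

/-- `T` is a subset of `^{<κ}κ` closed under initial segments, of size `κ`, with levels of size
less than `κ`, such that each maximal branch has cofinality `κ`. -/
structure KTree (κ : Cardinal.{u}) (T : Set Node.{u}) : Prop extends IsTree κ T where
  card_eq : #T = Cardinal.lift.{u + 1} κ
  level_small : ∀ α < κ.ord, #(level T α) < Cardinal.lift.{u + 1} κ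
  branch : ∀ b : Set Node.{u}, b ⊆ T → IsChain (· ≤ ·) b →
    (∀ b' : Set Node.{u}, b' ⊆ T → IsChain (· ≤ ·) b' → b ⊆ b' → b' = b) →
    Order.cof b = Cardinal.lift.{u + 1} κ

/-- The node `t` has two immediate successors in `T`. -/
def Splits (T : Set Node.{u}) (t : Node.{u}) : Prop :=
  ∃ s₁ s₂, ImmSucc T t s₁ ∧ ImmSucc T t s₂ ∧ s₁ ≠ s₂

/-- `T` is a regular tree: moreover each node has an extension which splits. -/
structure RegularTree (κ : Cardinal.{u}) (T : Set Node.{u}) : Prop extends KTree κ T where
  split : ∀ t ∈ T, ∃ s ∈ T, t ≤ s ∧ Splits T s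

/-- `T'` is a strong subtree of `T` witnessed by `A`. (It is not part of this notion that
`T'` has splitting nodes.) -/
structure StrongSubtree (κ : Cardinal.{u}) (T : Set Node.{u}) (A : Set Ordinal.{u})
    (T' : Set Node.{u}) : Prop extends KTree κ T' where
  sub : T' ⊆ T
  of_not_mem : ∀ t ∈ T', t.len ∉ A → ∃! s, ImmSucc T' t s
  of_mem : ∀ t ∈ T', t.len ∈ A → ∀ s, ImmSucc T t s → s ∈ T'

/-- The statement `HL (d, σ, κ)`: for all trees `T i` (`i < d`) and every colouring of
their level product with `σ` colours there are a cofinal `A ⊆ κ` and strong subtrees `T' i` of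
`T i`, all witnessed by `A`, such that the colouring is constant on the tuples of nodes of the
`T' i` of the same length `α ∈ A`.  Moreover, if each node of `T i` splits then `T' i` is a
regular tree. (The colouring is defined on all tuples; its values outside of the level product play
no role.) -/
def HL (d : ℕ) (σ : Ordinal.{u}) (κ : Cardinal.{u}) : Prop :=
  ∀ T : Fin d → Set Node.{u}, (∀ i, KTree κ (T i)) →
    ∀ c : (Fin d → Node.{u}) → Ordinal.{u}, (∀ x, c x < σ) →
      ∃ A : Set Ordinal.{u}, (∀ α ∈ A, α < κ.ord) ∧ (∀ β < κ.ord, ∃ α ∈ A, β ≤ α) ∧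
        ∃ T' : Fin d → Set Node.{u}, (∀ i, StrongSubtree κ (T i) A (T' i)) ∧
          (∀ i, (∀ t ∈ T i, Splits (T i) t) → RegularTree κ (T' i)) ∧
          ∃ j < σ, ∀ α ∈ A, ∀ x : Fin d → Node.{u}, (∀ i, x i ∈ level (T' i) α) → c x = j

end Notions

section Ambient

/-- The sets `x` with `W x` form a nonprincipal ultrafilter on the well-ordered set `K`, which is
closed under intersections of families indexed by proper initial segments of `K`. -/
def IsMeas {K : Type} [LinearOrder K] (W : (K → Prop) → Prop) : Prop :=
  (∀ x y : K → Prop, W x → (∀ ξ, x ξ → y ξ) → W y) ∧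
    (∀ x : K → Prop, ¬ W x → W fun ξ => ¬ x ξ) ∧
    (∀ x : K → Prop, W x → ∃ ξ, x ξ) ∧
    (∀ (η : K) (x : K → K → Prop), (∀ ζ, ζ < η → W (x ζ)) → W fun ξ => ∀ ζ, ζ < η → x ζ ξ) ∧
    ∀ ζ : K, W fun ξ => ξ ≠ ζ

/-- The binary relations `x`, `y` agree below `a`. -/
def Agree {K : Type} [LinearOrder K] (a : K) (x y : K → K → Prop) : Prop :=
  ∀ η, η < a → ∀ θ, θ < a → (x η θ ↔ y η θ)

/-- `c` is (the graph of) a colouring of the `d`-tuples of binary relations on the set of the
predecessors of `α`, with colours below `σ`. -/
def IsCol {K : Type} [LinearOrder K] {d : ℕ} (α σ : K) (c : (Fin d → K → K → Prop) → K → Prop) :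
    Prop :=
  (∀ x, ∃ ε, ε < σ ∧ c x ε) ∧ (∀ x ε ε', c x ε → c x ε' → ε = ε') ∧
    ∀ x y, (∀ i, Agree α (x i) (y i)) → ∀ ε, c x ε → c y ε

/-- For each colouring of the `d`-tuples of binary relations on `α` with fewer than `α` colours
there are `ζ < α`, a `d`-tuple `τ` of binary relations on `ζ` and a colour `ε` such that for each
`ξ < α` with `ζ ≤ ξ` there are families `z i` (`i < d`) of fewer than `α` relations, such that all
elements of the product of the `z i` have the colour `ε`, and each relation on `ξ` extending `τ i`
is extended by an element of `z i`. -/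
def Dns {K : Type} [LinearOrder K] (d : ℕ) (α : K) : Prop :=
  ∀ σ, σ < α → ∀ c : (Fin d → K → K → Prop) → K → Prop, IsCol α σ c →
    ∃ ζ, ζ < α ∧ ∃ (τ : Fin d → K → K → Prop) (ε : K), ∀ ξ, ξ < α → ζ ≤ ξ →
      ∃ μ, μ < α ∧ ∃ z : Fin d → K → K → K → Prop,
        (∀ ν : Fin d → K, (∀ i, ν i < μ) → c (fun i => z i (ν i)) ε) ∧
        ∀ (i : Fin d) (s : K → K → Prop), Agree ζ s (τ i) → ∃ ν, ν < μ ∧ Agree ξ (z i ν) s

/-- There is a nonprincipal ultrafilter on the well-ordered set `K`, closed under intersections of
families indexed by proper initial segments, and for each function `h` from `K` to `K` there is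
`α` closed under `h` such that `Dns d α` for all `d`. -/
def Hypothesis (K : Type) [LinearOrder K] : Prop :=
  (∃ W : (K → Prop) → Prop, IsMeas W) ∧
    ∀ h : K → K, ∃ α, (∃ ν, ν < α) ∧ (∀ ν, ν < α → h ν < α) ∧ ∀ d : ℕ, Dns d α

end Ambient

section Names

variable {P : Type} [Preorder P]

/-- `φ if and only if ψ`. -/
def fiff (φ ψ : Set P) : Set P := fand (fimp φ ψ) (fimp ψ φ)

/-- Forcing version of `IsMeas`. The ultrafilter of the extension is named by a function `W` from
the names of subsets of `K`. -/
def IsMeasN {K : Type} [LinearOrder K] (W : (K → Set P) → Set P) : Set P :=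
  fand (fall fun x : K → Set P => fall fun y : K → Set P =>
      fimp (fand (meets (W x)) (fall fun ξ => fimp (meets (x ξ)) (meets (y ξ)))) (meets (W y)))
    (fand (fall fun x : K → Set P => fimp (fnot (meets (W x)))
        (meets (W fun ξ => fnot (meets (x ξ)))))
      (fand (fall fun x : K → Set P => fimp (meets (W x)) (fex fun ξ => meets (x ξ)))
        (fand (fall fun η : K => fall fun x : K → K → Set P =>
            fimp (fall fun ζ => fimp (fground (ζ < η)) (meets (W (x ζ))))
              (meets (W fun ξ => fall fun ζ => fimp (fground (ζ < η)) (meets (x ζ ξ)))))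
          (fall fun ζ : K => meets (W fun ξ => fground (ξ ≠ ζ))))))

/-- Forcing version of `Agree`. -/
def AgreeN {K : Type} [LinearOrder K] (a : K) (x y : K → K → Set P) : Set P :=
  fall fun η => fimp (fground (η < a)) (fall fun θ => fimp (fground (θ < a))
    (fiff (meets (x η θ)) (meets (y η θ))))

/-- Forcing version of `IsCol`. The colouring of the extension is named by a function `c` from the
tuples of names of binary relations on `K`. -/
def IsColN {K : Type} [LinearOrder K] {d : ℕ} (α σ : K)
    (c : (Fin d → K → K → Set P) → K → Set P) : Set P :=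
  fand (fall fun x : Fin d → K → K → Set P => fex fun ε => fand (fground (ε < σ)) (meets (c x ε)))
    (fand (fall fun x : Fin d → K → K → Set P => fall fun ε => fall fun ε' =>
        fimp (fand (meets (c x ε)) (meets (c x ε'))) (fground (ε = ε')))
      (fall fun x : Fin d → K → K → Set P => fall fun y : Fin d → K → K → Set P =>
        fimp (fall fun i => AgreeN α (x i) (y i))
          (fall fun ε => fimp (meets (c x ε)) (meets (c y ε)))))

/-- Forcing version of `Dns`. -/
def DnsN {K : Type} [LinearOrder K] (d : ℕ) (α : K) : Set P :=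
  fall fun σ => fimp (fground (σ < α)) (fall fun c : (Fin d → K → K → Set P) → K → Set P =>
    fimp (IsColN α σ c) (fex fun ζ => fand (fground (ζ < α))
      (fex fun τ : Fin d → K → K → Set P => fex fun ε : K => fall fun ξ =>
        fimp (fground (ξ < α)) (fimp (fground (ζ ≤ ξ)) (fex fun μ => fand (fground (μ < α))
          (fex fun z : Fin d → K → K → K → Set P =>
            fand (fall fun ν : Fin d → K => fimp (fground (∀ i, ν i < μ))
                (meets (c (fun i => z i (ν i)) ε)))
              (fall fun i : Fin d => fall fun s : K → K → Set P => fimp (AgreeN ζ s (τ i))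
                (fex fun ν => fand (fground (ν < μ)) (AgreeN ξ (z i ν) s)))))))))

/-- Forcing version of `Hypothesis`; the function `h` is given by a name of its graph. -/
def HypothesisN (P : Type) [Preorder P] (K : Type) [LinearOrder K] : Set P :=
  fand (fex fun W : (K → Set P) → Set P => IsMeasN W)
    (fall fun h : K → K → Set P => fimp (IsFun h)
      (fex fun α => fand (fground (∃ ν, ν < α))
        (fand (fall fun ν => fimp (fground (ν < α))
            (fall fun b => fimp (meets (h ν b)) (fground (b < α))))
          (fall fun d : ℕ => DnsN d α))))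

end Names

end Pool.Agent.TH760
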