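import Pool.Agent.TH760.Names
import Pool.Agent.TH554.J660
import Pool.Agent.TH785.J.J659

/-!
# The Halpern–Läuchli argument at a level of the product forcing
-/

set_option autoImplicit false
set_option linter.unusedSectionVars false

namespace Pool.Agent.TH760

open Cardinal Set Filter
open Pool.Agent.W868.KP (Normal KClosed meet diag compl regular)
open Pool.Agent.Helper669.Forcing

section

variable {K : Type} [LinearOrder K] [WellFoundedLT K] {U : Ultrafilter K} {X : K → Prop}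
  {ℓ : K → K}

/-- The generic binary relation on `α` given by the coordinate `γ` on the level `α`; the values are
decoded by `φ`. -/
def yb (φ : K → Set (Cnd K X ℓ)) (α γ : K) : K → K → Set (QQ U X ℓ) := fun η θ =>
  {q | ∃ ν, q.1.fn (α, γ, η, θ) = some ν ∧ ∃ b ∈ φ ν, q.1 ≤ b}

theorem mem_yb {φ : K → Set (Cnd K X ℓ)} {α γ η θ ν : K} {r r' : QQ U X ℓ}
    (h : r.1.fn (α, γ, η, θ) = some ν) (hr' : r' ≤ r) :
    r' ∈ meets (yb φ α γ η θ) ↔ r' ∈ meets (up (φ ν)) := by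
  constructor
  · intro h1 q1 hq1
    obtain ⟨r2, hr2, s, ⟨ν', hν', b, hb, hsb⟩, h2⟩ := h1 q1 hq1
    have h3 : r2.1.fn (α, γ, η, θ) = some ν' := h2.1 _ _ hν'
    have h4 : r2.1.fn (α, γ, η, θ) = some ν := ((hr2.trans hq1).trans hr').1 _ _ h
    rw [h3] at h4
    cases h4
    exact ⟨r2, hr2, r2, ⟨b, hb, h2.1.trans hsb⟩, le_rfl⟩
  · intro h1 q1 hq1
    obtain ⟨r2, hr2, s, ⟨b, hb, hsb⟩, h2⟩ := h1 q1 hq1
    exact ⟨r2, hr2, r2, ⟨ν, ((hr2.trans hq1).trans hr').1 _ _ h, b, hb, h2.1.trans hsb⟩, le_rfl⟩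

/-- The graph of a column. -/
def gr (α : K) (p : Cnd K X ℓ) (y : K) : Set (Iio α × Iio α × Iio α) :=
  {z | p.fn (α, y, (z.1 : K), (z.2.1 : K)) = some (z.2.2 : K)}

theorem gr_eq {α : K} {p p' : Cnd K X ℓ} {y y' : K} (h : gr α p y = gr α p' y') {η θ v : K}
    (hv : p.fn (α, y, η, θ) = some v) : p'.fn (α, y', η, θ) = some v := by
  obtain ⟨-, -, h3, h4, h5⟩ := p.ok _ _ hv
  have h6 : ((⟨η, h3⟩, ⟨θ, h4⟩, ⟨v, h5⟩) : Iio α × Iio α × Iio α) ∈ gr α p y := hv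
  rw [h] at h6
  exact h6

open Classical in
/-- The columns of a family of conditions. -/
noncomputable def cols {α : K} {I : Type} (b : I → LowC X ℓ α) (g : I) (y : Iio (ℓ α)) :
    Option (Set (Iio α × Iio α × Iio α)) :=
  if ∃ η θ, (b g).1.fn (α, (y : K), η, θ) ≠ none then some (gr α (b g).1 y) else none

theorem cols_ne {α : K} {I : Type} {b : I → LowC X ℓ α} {g : I} {y : Iio (ℓ α)} :
    cols b g y ≠ none ↔ ∃ η θ, (b g).1.fn (α, (y : K), η, θ) ≠ none := by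
  classical
  unfold cols
  by_cases h : ∃ η θ, (b g).1.fn (α, (y : K), η, θ) ≠ none
  · rw [if_pos h]
    exact ⟨fun _ => h, fun _ => Option.some_ne_none _⟩
  · rw [if_neg h]
    exact ⟨fun h' => absurd rfl h', fun h' => absurd h' h⟩

theorem cols_some {α : K} {I : Type} {b : I → LowC X ℓ α} {g : I} {y : Iio (ℓ α)} {η θ v : K}
    (h : (b g).1.fn (α, (y : K), η, θ) = some v) : cols b g y = some (gr α (b g).1 y) := by
  classical
  unfold cols
  rw [if_pos ⟨η, θ, by rw [h]; exact Option.some_ne_none v⟩]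

theorem card_cols {α : K} (hα : Inac α) {I : Type} (b : I → LowC X ℓ α) (g : I) :
    #{y // cols b g y ≠ none} ≤ #(Iio α) := by
  classical
  refine le_trans ?_ (small_at hα (b g).1).le
  choose η θ h using fun y : {y // cols b g y ≠ none} => cols_ne.1 y.2
  refine Cardinal.mk_le_of_injective (f := fun y => ⟨((y.1 : K), η y, θ y), h y⟩) ?_
  intro y y' hy
  have h1 : ((y.1 : K), η y, θ y) = ((y'.1 : K), η y', θ y') :=
    congrArg (fun z : ({j | (b g).1.fn (α, j) ≠ none} : Set (K × K × K)) => z.1) hy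
  exact Subtype.ext (Subtype.ext (Prod.mk.inj h1).1)

theorem mul_le_two_pow {a b c : Cardinal.{0}} (hc : ℵ₀ ≤ c) (ha : a ≤ c) (hb : b ≤ c) :
    a * b ≤ c := (mul_le_mul' ha hb).trans (Cardinal.mul_eq_self hc).le

variable (G : Gd U X ℓ)

include G

/-- The first step: colours of the generic tuples are decided modulo the low part. -/
theorem Gd.step1 {α : K} (hX : X α) (d : ℕ) {σ : K}
    (c : (Fin d → K → K → Set (QQ U X ℓ)) → K → Set (QQ U X ℓ)) {q : QQ U X ℓ}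
    (hq : q ∈ IsColN α σ c) (y : (Fin d → Iio (ℓ α)) → Fin d → K → K → Set (QQ U X ℓ))
    (γ : (Fin d → Iio (ℓ α)) → Fin d → Iio (ℓ α)) :
    ∃ e ≤ ((hiPart α q.1, q.2) : HiC X ℓ α × Tl U X ℓ), ∀ g, ∃ b ≤ lowPart α q.1, ∃ ε < σ,
      jn α b e ∈ meets (c (y g) ε) ∧ ∃ ζ < α, (∃ a, a < ζ) ∧
        ∀ i η θ, b.1.fn (α, (γ g i : K), η, θ) ≠ none ↔ η < ζ ∧ θ < ζ := by
  classical
  have hα := G.X_inac α hX
  have hinf : ℵ₀ ≤ #(Iio (ℓ α)) := hα.inf.trans (G.ell_big α 0).le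
  have hcard : #(Fin d → Iio (ℓ α)) ≤ #(Iio (ℓ α)) := by
    have h := Cardinal.power_nat_le (n := d) hinf
    simpa using h
  have : Nonempty (Iio (ℓ α)) := by
    rw [← Cardinal.mk_ne_zero_iff]
    exact (Cardinal.aleph0_pos.trans_le hinf).ne'
  obtain ⟨em⟩ := hcard
  have hE : KClosed (Iio (ℓ α)) (HiC X ℓ α × Tl U X ℓ) := G.closed_hi_tl α (ℓ α) fun b hb hab =>
    hb.2 _ (G.ell_lt α b hb hab)
  have hjq : jn α (lowPart α q.1) (hiPart α q.1, q.2) ≤ q := ⟨join_parts α q.1, le_rfl⟩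
  let f := Function.invFun em
  have hf : f.Surjective := Function.invFun_surjective em.injective
  obtain ⟨e, he, h⟩ := (lift_jn (U := U) (X := X) (ℓ := ℓ) α).meet hE
    (fun _ => lowPart α q.1) (fun k => {r | ∃ ε < σ, r ∈ meets (c (y (f k)) ε)})
    (fun k r hr r' hr' => by
      obtain ⟨ε, hε, h⟩ := hr
      exact ⟨ε, hε, down_meets _ _ h _ hr'⟩) (hiPart α q.1, q.2) (fun k r hr => by
      obtain ⟨r', hr', ε, h1, h2⟩ := mem_fex.1 (hq.1 (y (f k))) r (hr.trans hjq)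
      exact ⟨r', hr', ε, h1, h2⟩)
  refine ⟨e, he, fun g => ?_⟩
  obtain ⟨k, rfl⟩ := hf g
  obtain ⟨b, hb, ε, hε, h1⟩ := h k
  obtain ⟨b2, hb2, ζ, hζ, hζ', h2⟩ := exists_fill hX hα
    (by obtain ⟨a, -, ha⟩ := G.exists_inac α; exact ⟨a, ha⟩) b (fun i => (γ (f k) i : K))
    (fun i => (γ (f k) i).2)
  exact ⟨b2, hb2.trans hb, ε, hε,
    down_meets _ _ h1 _ ((lift_jn (U := U) (X := X) (ℓ := ℓ) α).mono hb2 le_rfl), ζ, hζ, hζ', h2⟩

/-- The second step: homogenization. -/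
theorem Gd.step2 {α : K} (hX : X α) (d : ℕ) (b : (Fin d → Iio (ℓ α)) → LowC X ℓ α)
    (εf ζf : (Fin d → Iio (ℓ α)) → Iio α)
    (γ : (Fin d → Iio (ℓ α)) → Fin d → Iio (ℓ α)) :
    ∃ H : Fin d → Set (Iio (ℓ α)), (∀ i, #(Iio α) < #(H i)) ∧
      (∀ g g', (∀ i, g i ∈ H i) → (∀ i, g' i ∈ H i) →
        (∀ x v, x.1 < α → (b g).1.fn x = some v → (b g').1.fn x = some v) ∧ εf g = εf g' ∧
          ζf g = ζf g' ∧ ∀ i, gr α (b g).1 (γ g i) = gr α (b g').1 (γ g' i)) ∧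
      (∀ g g', (∀ i, g i ∈ H i) → (∀ i, g' i ∈ H i) → ∀ y : Iio (ℓ α), cols b g y ≠ none →
        cols b g' y ≠ none → gr α (b g).1 y = gr α (b g').1 y) ∧
      ∀ y : Iio (ℓ α), (∃ g, (∀ i, g i ∈ H i) ∧ cols b g y ≠ none) →
        (∀ g, (∀ i, g i ∈ H i) → cols b g y ≠ none) ∨
          ∃ i y', ∀ g, (∀ i, g i ∈ H i) → cols b g y ≠ none → g i = y' := by
  classical
  have hneK := G.nonempty
  have hα := G.X_inac α hX
  have hμ : #(Iio α) ≤ 2 ^ #(Iio α) := (Cardinal.cantor _).le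
  have hinf : ℵ₀ ≤ 2 ^ #(Iio α) := hα.inf.trans hμ
  have hV : #(Set (Iio α × Iio α × Iio α)) ≤ 2 ^ #(Iio α) := by
    rw [Cardinal.mk_set]
    refine Cardinal.power_le_power_left two_ne_zero ?_
    simp only [Cardinal.mk_prod, Cardinal.lift_id]
    exact mul_le_two_pow hα.inf le_rfl (mul_le_two_pow hα.inf le_rfl le_rfl)
  have hS : #((({p | ∀ x, p.fn x ≠ none → x.1 < α} : Set (Cnd K X ℓ)) × (Iio α × Iio α)) ×
      (Fin d → Set (Iio α × Iio α × Iio α))) ≤ 2 ^ #(Iio α) := by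
    rw [Cardinal.mk_prod, Cardinal.lift_id, Cardinal.lift_id]
    refine mul_le_two_pow hinf ?_ ?_
    · simp only [Cardinal.mk_prod, Cardinal.lift_id]
      exact mul_le_two_pow hinf ((G.card_lt hα).trans hμ) (mul_le_two_pow hinf hμ hμ)
    · have h1 : #(Fin d → Set (Iio α × Iio α × Iio α)) =
          #(Set (Iio α × Iio α × Iio α)) ^ d := by simp
      rw [h1]
      exact (pow_le_pow_left' hV d).trans (Cardinal.power_nat_le hinf)
  obtain ⟨H, h1, h2, h3, h4⟩ := Pool.Agent.TH554.J660.homog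
    (fun hM hΛ e => Pool.Agent.TH785.J659.delta_system hM hΛ e) d hα.inf hV hS
    (G.ell_big α) (fun g y => cols b g y) (fun g => card_cols hα b g)
    (fun g => ((⟨(b g).1.restr fun x => x.1 < α, fun _ hx => (Cnd.restr_ne hx).1⟩,
      εf g, ζf g), fun i => gr α (b g).1 (γ g i)))
  refine ⟨H, h1, fun g g' hg hg' => ?_, fun g g' hg hg' y hy hy' => ?_, h4⟩
  · have h5 := h2 g g' hg hg'
    obtain ⟨h6, h7⟩ := Prod.mk.inj h5
    obtain ⟨h8, h9⟩ := Prod.mk.inj h6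
    obtain ⟨h10, h11⟩ := Prod.mk.inj h9
    refine ⟨fun x v hx hv => ?_, h10, h11, fun i => congrFun h7 i⟩
    have h12 : (b g).1.restr (fun x => x.1 < α) = (b g').1.restr fun x => x.1 < α :=
      congrArg Subtype.val h8
    have h13 : ((b g).1.restr fun x => x.1 < α).fn x = some v := by
      rw [Cnd.restr_of (S := fun x : Ix K => x.1 < α) hx]
      exact hv
    rw [h12, Cnd.restr_of (S := fun x : Ix K => x.1 < α) hx] at h13
    exact h13
  · obtain ⟨η, θ, h5⟩ := cols_ne.1 hy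
    obtain ⟨η', θ', h6⟩ := cols_ne.1 hy'
    obtain ⟨v, hv⟩ := Option.ne_none_iff_exists'.1 h5
    obtain ⟨v', hv'⟩ := Option.ne_none_iff_exists'.1 h6
    exact h3 g g' hg hg' y _ _ (cols_some hv) (cols_some hv')

/-- The main step. -/
theorem Gd.core {α : K} (hX : X α) (d : ℕ) {σ : K} (hσ : σ < α)
    (c : (Fin d → K → K → Set (QQ U X ℓ)) → K → Set (QQ U X ℓ)) {q : QQ U X ℓ}
    (hq : q ∈ IsColN α σ c) :
    ∃ r ≤ q, ∃ ζ < α, ∃ (τ : Fin d → K → K → Set (QQ U X ℓ)) (ε : K), ∀ ξ < α, ζ ≤ ξ →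
      ∀ r1 ≤ r, ∃ r2 ≤ r1, ∃ μ < α, ∃ z : Fin d → K → K → K → Set (QQ U X ℓ),
        (∀ ν : Fin d → K, (∀ i, ν i < μ) → r2 ∈ meets (c (fun i => z i (ν i)) ε)) ∧
        ∀ (i : Fin d) (s : K → K → Set (QQ U X ℓ)), ∀ r3 ≤ r2, r3 ∈ AgreeN ζ s (τ i) →
          ∃ r4 ≤ r3, ∃ ν < μ, r4 ∈ AgreeN ξ (z i ν) s := by
  classical
  have hneK := G.nonempty
  have hα := G.X_inac α hX
  have hgt : ∃ a, α < a := by
    obtain ⟨a, -, ha⟩ := G.exists_inac α
    exact ⟨a, ha⟩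
  have hbig : #(Iio α) < #(Iio (ℓ α)) := G.ell_big α 0
  have hinf : ℵ₀ ≤ #(Iio (ℓ α)) := hα.inf.trans hbig.le
  obtain ⟨φ, hφ⟩ := G.exists_code hα
  -- pairs of an index and a coordinate are coded by coordinates
  obtain ⟨ι, hι⟩ : ∃ ι : Fin d × Iio (ℓ α) → Iio (ℓ α), Function.Injective ι := by
    have h : #(Fin d × Iio (ℓ α)) ≤ #(Iio (ℓ α)) := by
      rw [Cardinal.mk_prod, Cardinal.lift_id, Cardinal.lift_id, Cardinal.mk_fin]
      exact mul_le_two_pow hinf ((Cardinal.natCast_lt_aleph0).le.trans hinf) le_rfl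
    obtain ⟨e⟩ := h
    exact ⟨e, e.injective⟩
  obtain ⟨e, he, h1⟩ := G.step1 hX d c hq
    (fun g i => yb φ α (ι (i, g i) : K)) (fun g i => ι (i, g i))
  choose b hb εf hε hcol ζf hζ hζ' hsq using h1
  obtain ⟨H, hH, hconst, hcomp, hroot⟩ := G.step2 hX d b (fun g => ⟨εf g, (hε g).trans hσ⟩)
    (fun g => ⟨ζf g, hζ g⟩) (fun g i => ι (i, g i))
  -- the base tuple
  have hHne : ∀ i, ∃ y, y ∈ H i := fun i => by
    have : Nonempty (H i) := by
      rw [← Cardinal.mk_ne_zero_iff]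
      exact ((Cardinal.aleph0_pos.trans_le hα.inf).trans (hH i)).ne'
    obtain ⟨y⟩ := this
    exact ⟨y, y.2⟩
  choose g0 hg0 using hHne
  obtain ⟨v0, hv0⟩ := hα.ne
  let tv : Fin d → K → K → K := fun i η θ =>
    ((b g0).1.fn (α, (ι (i, g0 i) : K), η, θ)).getD v0
  have htv : ∀ i, ∀ η < ζf g0, ∀ θ < ζf g0,
      (b g0).1.fn (α, (ι (i, g0 i) : K), η, θ) = some (tv i η θ) := by
    intro i η hη θ hθ
    obtain ⟨v, hv⟩ := Option.ne_none_iff_exists'.1 ((hsq g0 i η θ).2 ⟨hη, hθ⟩)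
    show _ = some (((b g0).1.fn (α, (ι (i, g0 i) : K), η, θ)).getD v0)
    rw [hv, Option.getD_some]
  have hζc : ∀ g, (∀ i, g i ∈ H i) → ζf g = ζf g0 := fun g hg =>
    congrArg Subtype.val (hconst g g0 hg hg0).2.2.1
  have hεc : ∀ g, (∀ i, g i ∈ H i) → εf g = εf g0 := fun g hg =>
    congrArg Subtype.val (hconst g g0 hg hg0).2.1
  -- the root
  let Root : Iio (ℓ α) → Prop := fun y => ∀ g, (∀ i, g i ∈ H i) → cols b g y ≠ none
  let bs : LowC X ℓ α := ⟨(b g0).1.restr fun x => x.1 < α ∨ ∃ h : x.2.1 < ℓ α, Root ⟨x.2.1, h⟩,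
    fun x hx => (b g0).2 x (Cnd.restr_ne hx).2⟩
  have hbs : bs ≤ lowPart α q.1 := by
    intro x v hv
    have hx : x.1 ≤ α := (lowPart α q.1).2 x (by rw [hv]; exact Option.some_ne_none v)
    have h3 : ∀ g, (b g).1.fn x = some v := fun g => hb g x v hv
    show ite _ _ _ = _
    rw [if_pos, h3 g0]
    rcases lt_or_eq_of_le hx with h4 | h4
    · exact Or.inl h4
    · right
      have h5 := ((b g0).1.ok x v (h3 g0)).2.1
      rw [h4] at h5
      refine ⟨h5, fun g _ => cols_ne.2 ⟨x.2.2.1, x.2.2.2, ?_⟩⟩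
      have h6 : ((α, x.2.1, x.2.2.1, x.2.2.2) : Ix K) = x := by
        rw [← h4]
      show (b g).1.fn (α, x.2.1, x.2.2.1, x.2.2.2) ≠ none
      rw [h6, h3 g]
      exact Option.some_ne_none v
  have hrq : jn α bs e ≤ q :=
    ((lift_jn (U := U) (X := X) (ℓ := ℓ) α).mono hbs he).trans ⟨join_parts α q.1, le_rfl⟩
  refine ⟨jn α bs e, hrq, ζf g0, hζ g0, fun i η θ => up (φ (tv i η θ)), εf g0, ?_⟩
  intro ξ hξ hζξ r1 hr1
  have hr1b : r1.1 ≤ bs.1 := hr1.1.trans jn_le_low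
  have hr1e : r1.1 ≤ e.1.1 := hr1.1.trans jn_le_hi
  -- codes
  obtain ⟨μ, hμ, E, hE, hEn⟩ := G.exists_names hα hξ
  have hcode : ∀ ν η θ, ∃ k < α, φ k = E ν η θ := fun ν η θ => hφ ξ hξ _ (hE ν η θ)
  choose code hcode1 hcode2 using hcode
  -- the columns used by r1
  let D1 : Set (Iio (ℓ α)) := {y | ∃ η θ, r1.1.fn (α, (y : K), η, θ) ≠ none}
  have hD1 : #D1 < #(Iio α) := by
    refine lt_of_le_of_lt ?_ (small_at hα r1.1)
    choose η θ h using fun y : D1 => y.2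
    refine Cardinal.mk_le_of_injective (f := fun y => ⟨((y.1 : K), η y, θ y), h y⟩) ?_
    intro y y' hy
    have h1 : ((y.1 : K), η y, θ y) = ((y'.1 : K), η y', θ y') :=
      congrArg (fun z : ({j | r1.1.fn (α, j) ≠ none} : Set (K × K × K)) => z.1) hy
    exact Subtype.ext (Subtype.ext (Prod.mk.inj h1).1)
  have hbsv : ∀ (y : Iio (ℓ α)) η θ v, Root y → (b g0).1.fn (α, (y : K), η, θ) = some v →
      r1.1.fn (α, (y : K), η, θ) = some v := by
    intro y η θ v hy hv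
    refine hr1b _ _ ?_
    show ite _ _ _ = _
    rw [if_pos, hv]
    exact Or.inr ⟨y.2, hy⟩
  have hRD : ∀ y, Root y → y ∈ D1 := by
    intro y hy
    obtain ⟨η, θ, h⟩ := cols_ne.1 (hy g0 hg0)
    obtain ⟨v, hv⟩ := Option.ne_none_iff_exists'.1 h
    refine ⟨η, θ, ?_⟩
    rw [hbsv y η θ v hy hv]
    exact Option.some_ne_none v
  -- witnesses
  have hwit : ∀ y : Iio (ℓ α), ∃ w : Option (Fin d × Iio (ℓ α)), ¬ Root y →
      ∀ g, (∀ i, g i ∈ H i) → cols b g y ≠ none → ∃ i y', w = some (i, y') ∧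
        ∀ g, (∀ i, g i ∈ H i) → cols b g y ≠ none → g i = y' := by
    intro y
    by_cases h : ∃ g, (∀ i, g i ∈ H i) ∧ cols b g y ≠ none
    · rcases hroot y h with h' | ⟨i, y', h'⟩
      · exact ⟨none, fun h'' => absurd h' h''⟩
      · exact ⟨some (i, y'), fun _ g _ _ => ⟨i, y', rfl, h'⟩⟩
    · exact ⟨none, fun _ g hg hg' => absurd ⟨g, hg, hg'⟩ h⟩
  choose wit hwit using hwit
  -- choice of coordinates
  have hu : ∀ i, ∃ u : Iio μ → Iio (ℓ α), Function.Injective u ∧ (∀ ν, u ν ∈ H i) ∧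
      (∀ ν, ι (i, u ν) ∉ D1) ∧ ∀ ν, ∀ y ∈ D1, wit y ≠ some (i, u ν) := by
    intro i
    let B1 : Set (Iio (ℓ α)) := {y | ι (i, y) ∈ D1}
    let B2 : Set (Iio (ℓ α)) := {y' | ∃ y ∈ D1, wit y = some (i, y')}
    have hBad : #(B1 ∪ B2 : Set (Iio (ℓ α))) < #(Iio α) := by
      refine hα.union ?_ ?_
      · refine lt_of_le_of_lt ?_ hD1
        refine Cardinal.mk_le_of_injective (f := fun y : B1 => (⟨ι (i, y.1), y.2⟩ : D1)) ?_
        intro y y' h
        have h1 := hι (congrArg (fun z : D1 => z.1) h)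
        exact Subtype.ext (Prod.mk.inj h1).2
      · refine lt_of_le_of_lt ?_ hD1
        choose f hf using fun y' : B2 => y'.2
        refine Cardinal.mk_le_of_injective (f := fun y' : B2 => (⟨f y', (hf y').1⟩ : D1)) ?_
        intro y y' h
        have h1 : f y = f y' := congrArg (fun z : D1 => z.1) h
        have h2 := (hf y).2
        rw [h1, (hf y').2] at h2
        exact Subtype.ext (Prod.mk.inj (Option.some.inj h2)).2.symm
    have h3 : #(Iio μ) ≤ #(H i \ (B1 ∪ B2) : Set (Iio (ℓ α))) := by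
      by_contra hc
      push Not at hc
      have h4 : #(H i) < #(Iio α) := by
        refine lt_of_le_of_lt (Cardinal.mk_le_mk_of_subset
          (show H i ⊆ (H i \ (B1 ∪ B2)) ∪ (B1 ∪ B2) from ?_))
          (hα.union (hc.trans (hα.2 μ hμ)) hBad)
        intro y hy
        by_cases h5 : y ∈ B1 ∪ B2
        · exact Or.inr h5
        · exact Or.inl ⟨hy, h5⟩
      exact absurd (h4.trans (hH i)) (lt_irrefl _)
    obtain ⟨em⟩ := h3
    refine ⟨fun ν => (em ν).1, ?_, fun ν => (em ν).2.1, fun ν h => (em ν).2.2 (Or.inl h),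
      fun ν y hy h => (em ν).2.2 (Or.inr ⟨y, hy, h⟩)⟩
    intro ν ν' h
    exact em.injective (Subtype.ext h)
  choose u hu1 hu2 hu3 hu4 using hu
  let gg : (Fin d → Iio μ) → Fin d → Iio (ℓ α) := fun ν i => u i (ν i)
  have hgg : ∀ ν i, gg ν i ∈ H i := fun ν i => hu2 i (ν i)
  have hcompat : ∀ g g', (∀ i, g i ∈ H i) → (∀ i, g' i ∈ H i) → ∀ j v v',
      (b g).1.fn (α, j) = some v → (b g').1.fn (α, j) = some v' → v = v' := by
    intro g g' hg hg' j v v' hv hv'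
    have h3 : j.1 < ℓ α := ((b g).1.ok _ _ hv).2.1
    have h4 : cols b g ⟨j.1, h3⟩ ≠ none := cols_ne.2 ⟨j.2.1, j.2.2, by
      show (b g).1.fn (α, j) ≠ none
      rw [hv]
      exact Option.some_ne_none v⟩
    have h5 : cols b g' ⟨j.1, h3⟩ ≠ none := cols_ne.2 ⟨j.2.1, j.2.2, by
      show (b g').1.fn (α, j) ≠ none
      rw [hv']
      exact Option.some_ne_none v'⟩
    have h6 := gr_eq (hcomp g g' hg hg' _ h4 h5) (η := j.2.1) (θ := j.2.2) (v := v) hv
    have h7 : (b g').1.fn (α, j) = some v := h6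
    rw [hv'] at h7
    exact (Option.some.inj h7).symm
  -- the new part of the condition
  let w : K × K × K → Option K := fun j =>
    if h : ∃ v, ∃ ν : Fin d → Iio μ, (b (gg ν)).1.fn (α, j) = some v then some h.choose
    else if h' : ∃ z : Fin d × Iio μ, j.1 = ι (z.1, u z.1 z.2) ∧ j.2.1 < ξ ∧ j.2.2 < ξ then
      some (code (h'.choose.2 : K) j.2.1 j.2.2) else none
  have hwb : ∀ ν j v, (b (gg ν)).1.fn (α, j) = some v → w j = some v := by
    intro ν j v hv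
    have h : ∃ v, ∃ ν : Fin d → Iio μ, (b (gg ν)).1.fn (α, j) = some v := ⟨v, ν, hv⟩
    have h3 : w j = some h.choose := dif_pos h
    obtain ⟨ν', hν'⟩ := h.choose_spec
    rw [h3, hcompat _ _ (hgg ν') (hgg ν) j _ _ hν' hv]
  have hwc : ∀ (j : K × K × K) (i : Fin d) (ν : Iio μ),
      (¬ ∃ v, ∃ ν : Fin d → Iio μ, (b (gg ν)).1.fn (α, j) = some v) →
      j.1 = ι (i, u i ν) → j.2.1 < ξ → j.2.2 < ξ → w j = some (code (ν : K) j.2.1 j.2.2) := by
    intro j i ν h h1 h2 h3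
    have h' : ∃ z : Fin d × Iio μ, j.1 = ι (z.1, u z.1 z.2) ∧ j.2.1 < ξ ∧ j.2.2 < ξ :=
      ⟨(i, ν), h1, h2, h3⟩
    have h4 : w j = some (code (h'.choose.2 : K) j.2.1 j.2.2) := by
      show dite _ _ _ = _
      rw [dif_neg h, dif_pos h']
    have h6 := hι (Subtype.ext (h1.symm.trans h'.choose_spec.1))
    obtain ⟨h7, h8⟩ := Prod.mk.inj h6
    have h9 : ν = h'.choose.2 := by
      refine hu1 i ?_
      rw [h8, ← h7]
    rw [h4, ← h9]
  have hwn : ∀ j, w j ≠ none → (∃ ν : Fin d → Iio μ, (b (gg ν)).1.fn (α, j) ≠ none) ∨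
      ∃ z : Fin d × Iio μ, j.1 = ι (z.1, u z.1 z.2) ∧ j.2.1 < ξ ∧ j.2.2 < ξ := by
    intro j hj
    by_cases h : ∃ v, ∃ ν : Fin d → Iio μ, (b (gg ν)).1.fn (α, j) = some v
    · obtain ⟨v, ν, hv⟩ := h
      exact Or.inl ⟨ν, by rw [hv]; exact Option.some_ne_none v⟩
    · by_cases h' : ∃ z : Fin d × Iio μ, j.1 = ι (z.1, u z.1 z.2) ∧ j.2.1 < ξ ∧ j.2.2 < ξ
      · exact Or.inr h'
      · refine absurd ?_ hj
        show dite _ _ _ = _
        rw [dif_neg h, dif_neg h']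
  have hw : ∀ j v, w j = some v → j.1 < ℓ α ∧ j.2.1 < α ∧ j.2.2 < α ∧ v < α := by
    intro j v hj
    by_cases h : ∃ v, ∃ ν : Fin d → Iio μ, (b (gg ν)).1.fn (α, j) = some v
    · obtain ⟨v', ν, hv⟩ := h
      have h3 := hwb ν j v' hv
      rw [hj] at h3
      cases h3
      exact ((b (gg ν)).1.ok _ _ hv).2
    · rcases hwn j (by rw [hj]; exact Option.some_ne_none v) with ⟨ν, h3⟩ | ⟨z, h3, h4, h5⟩
      · obtain ⟨v', hv'⟩ := Option.ne_none_iff_exists'.1 h3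
        exact absurd ⟨v', ν, hv'⟩ h
      · have h6 := hwc j z.1 z.2 h h3 h4 h5
        rw [hj] at h6
        cases h6
        refine ⟨?_, h4.trans hξ, h5.trans hξ, hcode1 _ _ _⟩
        rw [h3]
        exact (ι (z.1, u z.1 z.2)).2
  have hs : #({j | w j ≠ none} : Set (K × K × K)) < #(Iio α) := by
    have h1 : #(Fin d × Iio μ × Iio ξ × Iio ξ) < #(Iio α) := by
      refine hα.prod ?_ (hα.prod (hα.2 μ hμ) (hα.prod (hα.2 ξ hξ) (hα.2 ξ hξ)))
      rw [Cardinal.mk_fin]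
      exact (Cardinal.natCast_lt_aleph0).trans_le hα.inf
    have h2 : ({j | w j ≠ none} : Set (K × K × K)) ⊆
        (⋃ ν : Fin d → Iio μ, {j | (b (gg ν)).1.fn (α, j) ≠ none}) ∪
        range fun z : Fin d × Iio μ × Iio ξ × Iio ξ =>
          (((ι (z.1, u z.1 z.2.1) : Iio (ℓ α)) : K), (z.2.2.1 : K), (z.2.2.2 : K)) := by
      intro j hj
      rcases hwn j hj with ⟨ν, h3⟩ | ⟨z, h3, h4, h5⟩
      · exact Or.inl (mem_iUnion.2 ⟨ν, h3⟩)
      · exact Or.inr ⟨(z.1, z.2, ⟨_, h4⟩, ⟨_, h5⟩), Prod.ext h3.symm (Prod.ext rfl rfl)⟩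
    refine (Cardinal.mk_le_mk_of_subset h2).trans_lt (hα.union ?_
      (Cardinal.mk_range_le.trans_lt h1))
    rw [card_iUnion_lt_iff_forall_of_isRegular hα.reg (Inac.pi α hα (hα.2 μ hμ) d)]
    exact fun ν => small_at hα _
  let pn : Cnd K X ℓ := atL α hX hα hgt w hw hs
  let p' : Cnd K X ℓ := r1.1.join pn
  have hp'n : ∀ j, r1.1.fn (α, j) = none → p'.fn (α, j) = w j := by
    intro j hj
    show (r1.1.join pn).fn _ = _
    rw [Cnd.join_right hj]
    exact atL_fn j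
  -- agreement with the conditions of the family
  have hagree : ∀ ν j v v', (b (gg ν)).1.fn (α, j) = some v → r1.1.fn (α, j) = some v' →
      v' = v := by
    intro ν j v v' hv hv'
    have h3 : j.1 < ℓ α := ((b (gg ν)).1.ok _ _ hv).2.1
    have h4 : cols b (gg ν) ⟨j.1, h3⟩ ≠ none := cols_ne.2 ⟨j.2.1, j.2.2, by
      show (b (gg ν)).1.fn (α, j) ≠ none
      rw [hv]
      exact Option.some_ne_none v⟩
    have h5 : (⟨j.1, h3⟩ : Iio (ℓ α)) ∈ D1 := ⟨j.2.1, j.2.2, by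
      show r1.1.fn (α, j) ≠ none
      rw [hv']
      exact Option.some_ne_none v'⟩
    by_cases hR : Root ⟨j.1, h3⟩
    · have h6 := gr_eq (hcomp (gg ν) g0 (hgg ν) hg0 _ h4 (hR g0 hg0)) (η := j.2.1)
        (θ := j.2.2) (v := v) hv
      have h7 := hbsv ⟨j.1, h3⟩ j.2.1 j.2.2 v hR h6
      have h8 : r1.1.fn (α, j) = some v := h7
      rw [hv'] at h8
      exact Option.some.inj h8
    · obtain ⟨i, y', h6, h7⟩ := hwit ⟨j.1, h3⟩ hR (gg ν) (hgg ν) h4
      have h8 := h7 (gg ν) (hgg ν) h4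
      rw [← h8] at h6
      exact absurd h6 (hu4 i (ν i) _ h5)
  have hA : ∀ ν, p' ≤ (b (gg ν)).1 := by
    intro ν x v hv
    have hx : x.1 ≤ α := (b (gg ν)).2 x (by rw [hv]; exact Option.some_ne_none v)
    rcases lt_or_eq_of_le hx with h | h
    · have h3 := (hconst (gg ν) g0 (hgg ν) hg0).1 x v h hv
      refine Cnd.join_left (hr1b _ _ ?_)
      show ite _ _ _ = _
      rw [if_pos (Or.inl h), h3]
    · obtain ⟨x1, j⟩ := x
      have h' : x1 = α := h
      subst h'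
      cases hr : r1.1.fn (x1, j) with
      | some v' =>
        rw [← hagree ν j v v' hv hr]
        exact Cnd.join_left hr
      | none =>
        rw [hp'n j hr]
        exact hwb ν j v hv
  have hr2r1 : ((p', r1.2) : QQ U X ℓ) ≤ r1 := ⟨Cnd.join_le_left, le_rfl⟩
  have hζpos : ∃ a, a < ζf g0 := hζ' g0
  -- the values of the new columns
  have hnone : ∀ i ν η θ, r1.1.fn (α, (ι (i, u i ν) : K), η, θ) = none := by
    intro i ν η θ
    by_contra hc
    exact hu3 i ν ⟨η, θ, hc⟩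
  have hB1 : ∀ i (ν : Iio μ), ∀ η < ζf g0, ∀ θ < ζf g0,
      p'.fn (α, (ι (i, u i ν) : K), η, θ) = some (tv i η θ) := by
    intro i ν η hη θ hθ
    rw [hp'n _ (hnone i ν η θ)]
    have h3 := (hconst g0 (gg fun _ => ν) hg0 (hgg _)).2.2.2 i
    exact hwb (fun _ => ν) _ _ (gr_eq h3 (htv i η hη θ hθ))
  have hB2 : ∀ i (ν : Iio μ), ∀ η < ξ, ∀ θ < ξ, ¬ (η < ζf g0 ∧ θ < ζf g0) →
      p'.fn (α, (ι (i, u i ν) : K), η, θ) = some (code (ν : K) η θ) := by
    intro i ν η hη θ hθ hn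
    rw [hp'n _ (hnone i ν η θ)]
    refine hwc _ i ν ?_ rfl hη hθ
    rintro ⟨v, ν', hv⟩
    -- the coordinate is the one of the tuple
    have h3 : cols b (gg ν') (ι (i, u i ν)) ≠ none := cols_ne.2 ⟨η, θ, by
      rw [hv]
      exact Option.some_ne_none v⟩
    have hR : ¬ Root (ι (i, u i ν)) := fun h => hu3 i ν (hRD _ h)
    rcases hroot (ι (i, u i ν)) ⟨gg ν', hgg ν', h3⟩ with h4 | ⟨i1, y1, h4⟩
    · exact hR h4
    · -- tuples through `u i ν`
      have h5 : ∀ g : Fin d → Iio (ℓ α), (∀ i, g i ∈ H i) → g i = u i ν →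
          cols b g (ι (i, u i ν)) ≠ none := by
        intro g hg hgi
        obtain ⟨a, ha⟩ := hζ' g
        refine cols_ne.2 ⟨a, a, ?_⟩
        rw [← hgi]
        exact (hsq g i a a).2 ⟨ha, ha⟩
      have h6 : i1 = i := by
        by_contra hne
        -- an element of `H i1` different from `y1`
        obtain ⟨y2, hy2, hy21⟩ : ∃ y2 ∈ H i1, y2 ≠ y1 := by
          by_contra hc
          push Not at hc
          have h7 : #(H i1) ≤ 1 := by
            rw [Cardinal.mk_le_one_iff_set_subsingleton]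
            intro a ha a' ha'
            rw [hc a ha, hc a' ha']
          exact absurd ((hα.inf.trans_lt (hH i1)).trans_le h7)
            (not_lt.2 Cardinal.one_lt_aleph0.le)
        let g1 : Fin d → Iio (ℓ α) := fun k => if k = i then u i ν else if k = i1 then y2 else g0 k
        have hg1 : ∀ k, g1 k ∈ H k := by
          intro k
          by_cases hk : k = i
          · subst hk
            show (if k = k then u k ν else _) ∈ H k
            rw [if_pos rfl]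
            exact hu2 k ν
          · by_cases hk1 : k = i1
            · subst hk1
              show (if k = i then u i ν else if k = k then y2 else g0 k) ∈ H k
              rw [if_neg hk, if_pos rfl]
              exact hy2
            · show (if k = i then u i ν else if k = i1 then y2 else g0 k) ∈ H k
              rw [if_neg hk, if_neg hk1]
              exact hg0 k
        have h7 : g1 i = u i ν := if_pos rfl
        have h8 := h4 g1 hg1 (h5 g1 hg1 h7)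
        have h9 : g1 i1 = y2 := by
          show (if i1 = i then u i ν else if i1 = i1 then y2 else g0 i1) = y2
          rw [if_neg hne, if_pos rfl]
        rw [h9] at h8
        exact hy21 h8
      subst h6
      have h7 : y1 = u i1 ν := by
        have h8 := h4 (gg fun _ => ν) (hgg _) (h5 _ (hgg _) rfl)
        exact h8.symm
      have h8 : gg ν' i1 = u i1 ν := (h4 (gg ν') (hgg ν') h3).trans h7
      have h9 := (hsq (gg ν') i1 η θ).1 (by
        rw [h8, hv]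
        exact Option.some_ne_none v)
      rw [hζc (gg ν') (hgg ν')] at h9
      exact hn h9
  refine ⟨(p', r1.2), hr2r1, μ, hμ,
    fun i ν => if h : ν < μ then yb φ α (ι (i, u i ⟨ν, h⟩) : K) else fun _ _ => ∅, ?_, ?_⟩
  · intro ν hν
    have h3 : (fun i => if h : ν i < μ then yb (U := U) φ α (ι (i, u i ⟨ν i, h⟩) : K)
        else fun _ _ => ∅) = fun i => yb φ α (ι (i, gg (fun i => ⟨ν i, hν i⟩) i) : K) := by
      funext i
      rw [dif_pos (hν i)]
    rw [h3]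
    have h4 := hcol (gg fun i => ⟨ν i, hν i⟩)
    rw [hεc _ (hgg _)] at h4
    refine down_meets _ _ h4 _ (le_jn (hA _) ?_ ?_)
    · exact Cnd.join_le_left.trans hr1e
    · exact hr1.2
  · intro i s r3 hr3 hs3
    obtain ⟨a0, ha0⟩ := hζpos
    have hξpos : a0 < ξ := ha0.trans_le hζξ
    have : Nonempty (Iio ξ × Iio ξ) := ⟨(⟨a0, hξpos⟩, ⟨a0, hξpos⟩)⟩
    obtain ⟨q', hq', n, hn1, hn2⟩ := G.reduce_low ξ (I := Iio ξ × Iio ξ)
      (fun b hb hb' => hb.prod (hb.2 ξ hb') (hb.2 ξ hb')) (fun z => s z.1 z.2) r3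
    obtain ⟨ν, hν, hEν⟩ := hEn (fun η θ => if h : η < ξ ∧ θ < ξ then n (⟨η, h.1⟩, ⟨θ, h.2⟩)
      else ∅) (by
        intro η θ b hb
        by_cases h : η < ξ ∧ θ < ξ
        · rw [dif_pos h] at hb
          exact hn1 _ b hb
        · rw [dif_neg h] at hb
          exact absurd hb (Set.notMem_empty b))
    refine ⟨q', hq', ν, hν, ?_⟩
    show q' ∈ AgreeN ξ (if h : ν < μ then yb φ α (ι (i, u i ⟨ν, h⟩) : K) else fun _ _ => ∅) s
    rw [dif_pos hν, mem_AgreeN]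
    intro η hη θ hθ r' hr'
    have hr'2 : r' ≤ (p', r1.2) := (hr'.trans hq').trans hr3
    by_cases h : η < ζf g0 ∧ θ < ζf g0
    · rw [mem_yb (r := (p', r1.2)) (hB1 i ⟨ν, hν⟩ η h.1 θ h.2) hr'2]
      exact (mem_AgreeN.1 hs3 η h.1 θ h.2 r' (hr'.trans hq')).symm
    · rw [mem_yb (r := (p', r1.2)) (hB2 i ⟨ν, hν⟩ η hη θ hθ h) hr'2, hcode2, hEν η hη θ hθ,
        dif_pos ⟨hη, hθ⟩]
      exact (hn2 r' hr' (⟨η, hη⟩, ⟨θ, hθ⟩)).symm

/-- The dense monochromatic families exist in the extension. -/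
theorem Gd.dns {α : K} (hX : X α) (d : ℕ) (q0 : QQ U X ℓ) : q0 ∈ DnsN (P := QQ U X ℓ) d α := by
  intro σ
  rw [mem_fimp]
  intro q1 hq1 hσ
  refine ⟨q1, le_rfl, fun c => ?_⟩
  rw [mem_fimp]
  intro q hq hc
  obtain ⟨r, hr, ζ, hζ, τ, ε, h⟩ := G.core hX d hσ c hc
  refine ⟨r, hr, ?_⟩
  rw [mem_fex]
  intro r0 hr0
  refine ⟨r0, le_rfl, ζ, hζ, ?_⟩
  rw [mem_fex]
  intro r00 hr00
  refine ⟨r00, le_rfl, τ, ?_⟩
  rw [mem_fex]
  intro r01 hr01
  refine ⟨r01, le_rfl, ε, fun ξ => ?_⟩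
  rw [mem_fimp]
  intro r02 hr02 hξ
  refine ⟨r02, le_rfl, ?_⟩
  rw [mem_fimp]
  intro r03 hr03 hζξ
  refine ⟨r03, le_rfl, ?_⟩
  rw [mem_fex]
  intro r1 hr1
  obtain ⟨r2, hr2, μ, hμ, z, h1, h2⟩ := h ξ hξ hζξ r1
    ((((hr1.trans hr03).trans hr02).trans hr01).trans (hr00.trans hr0))
  refine ⟨r2, hr2, μ, hμ, ?_⟩
  rw [mem_fex]
  intro r20 hr20
  refine ⟨r20, le_rfl, z, fun ν => ?_, fun i s => ?_⟩
  · rw [mem_fimp]
    intro r21 hr21 hν
    exact ⟨r21, le_rfl, down_meets _ _ (h1 ν hν) _ (hr21.trans hr20)⟩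
  · rw [mem_fimp]
    intro r3 hr3 hs
    obtain ⟨r4, hr4, ν, hν, h3⟩ := h2 i s r3 (hr3.trans hr20) hs
    refine ⟨r4, hr4, ?_⟩
    rw [mem_fex]
    intro r5 hr5
    refine ⟨r5, le_rfl, ν, hν, ?_⟩
    rw [mem_AgreeN] at h3 ⊢
    exact fun η hη θ hθ r' hr' => h3 η hη θ hθ r' (hr'.trans hr5)

end

end Pool.Agent.TH760
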