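import Pool.Agent.TH515.J666

/-!
# The literal form of the statement fails
-/

set_option autoImplicit false

universe u

namespace Pool.Agent.TH760

open Cardinal Ordinal Set
open Pool.Agent.H348R6.HLT (Node IsTree level ImmSucc)
open Pool.Agent.TH515.J666 (PT mod_two_cases regular level_nonempty succ_eq two_lt_ord)

/-- The form of `HL (d, σ, κ)` in which the strong subtrees of arbitrary regular trees are required
to be regular. -/
def LiteralHL (d : ℕ) (σ : Ordinal.{u}) (κ : Cardinal.{u}) : Prop :=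
  ∀ T : Fin d → Set Node.{u}, (∀ i, RegularTree κ (T i)) →
    ∀ c : (Fin d → Node.{u}) → Ordinal.{u}, (∀ x, c x < σ) →
      ∃ A : Set Ordinal.{u}, (∀ α ∈ A, α < κ.ord) ∧ (∀ β < κ.ord, ∃ α ∈ A, β ≤ α) ∧
        ∃ T' : Fin d → Set Node.{u},
          (∀ i, StrongSubtree κ (T i) A (T' i) ∧ RegularTree κ (T' i)) ∧
          ∃ j < σ, ∀ α ∈ A, ∀ x : Fin d → Node.{u}, (∀ i, x i ∈ level (T' i) α) → c x = j

/-- Parity example. -/
theorem not_literalHL {κ : Cardinal.{u}} (hκ : κ.IsInaccessible) {d : ℕ} (hd : 2 ≤ d) :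
    ¬ LiteralHL d 2 κ := by
  obtain ⟨e, rfl⟩ := Nat.exists_eq_add_of_le' hd
  intro hHL
  set Q : Fin (e + 2) → Ordinal.{u} → Prop :=
    fun i β => if i = 0 then β % 2 = 0 else β % 2 ≠ 0 with hQ
  obtain ⟨A, hA1, hA2, T', hT', j, -, hj⟩ := hHL (fun i => PT κ (Q i))
    (fun i => regular hκ fun α => by
      simp only [hQ]
      rcases mod_two_cases α with ⟨h1, h2⟩ | ⟨h1, h2⟩
      · split_ifs
        · exact Or.inl h1
        · exact Or.inr h2
      · split_ifs
        · exact Or.inr h2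
        · exact Or.inl h1) (fun x => (x 0).len % 2) (fun x => Ordinal.mod_lt _ two_ne_zero)
  have hpar : ∀ α ∈ A, α % 2 = j := by
    intro α hα
    have h1 : ∀ i, (level (T' i) α).Nonempty := fun i =>
      level_nonempty hκ (hT' i).1.toKTree (hA1 α hα)
    choose x hx using h1
    rw [← hj α hα x hx, (hx 0).2]
  have key : ∀ i, ¬ ∀ α ∈ A, ¬ Q i α := by
    intro i hQi
    have hne : (T' i).Nonempty := by
      obtain ⟨x, hx⟩ := level_nonempty hκ (hT' i).1.toKTree (α := 0)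
        (two_pos.trans (two_lt_ord hκ))
      exact ⟨x, hx.1⟩
    obtain ⟨t, ht⟩ := hne
    obtain ⟨s, hs, -, s₁, s₂, h1, h2, h3⟩ := (hT' i).2.split t ht
    by_cases hsA : s.len ∈ A
    · refine h3 (succ_eq (κ := κ) (hQi _ hsA) ⟨(hT' i).1.sub h1.1, h1.2⟩
        ⟨(hT' i).1.sub h2.1, h2.2⟩)
    · obtain ⟨r, -, hr⟩ := (hT' i).1.of_not_mem s hs hsA
      exact h3 ((hr s₁ h1).trans (hr s₂ h2).symm)
  by_cases h0 : j = 0
  · refine key 1 fun α hα => ?_
    have h1 : Q 1 α ↔ α % 2 ≠ 0 := by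
      show (if (1 : Fin (e + 2)) = 0 then α % 2 = 0 else α % 2 ≠ 0) ↔ _
      rw [if_neg]
      exact Fin.zero_lt_one.ne'
    rw [h1]
    exact not_not.2 ((hpar α hα).trans h0)
  · refine key 0 fun α hα => ?_
    have h1 : Q 0 α ↔ α % 2 = 0 := by
      show (if (0 : Fin (e + 2)) = 0 then α % 2 = 0 else α % 2 ≠ 0) ↔ _
      rw [if_pos rfl]
    rw [h1]
    exact fun h => h0 ((hpar α hα).symm.trans h)

end Pool.Agent.TH760
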