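import Pool.Agent.TH760.Dns
import Pool.Agent.TH760.Lit
import Pool.Agent.W868.KP.Msr
import Pool.Agent.TH785.J.J661
import Pool.Agent.TH785.J.J662
import Pool.Agent.TH671.J663
import Pool.Agent.TH671.J664

/-!
# Measurability and the Halpern–Läuchli statement from one measurable cardinal
-/

set_option autoImplicit false

namespace Pool.Agent.TH760

open Cardinal Set Filter
open Pool.Agent.W868.KP (Normal KClosed meet diag compl compl_U wf_U)
open Pool.Agent.Helper669.Forcing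
open Pool.Agent.H348R6.HLT (Node IsTree level ImmSucc)

/-- Every measurable cardinal carries a normal ultrafilter. -/
theorem exists_normal {κ : Cardinal.{0}} (h : IsMeasurable κ) :
    ∃ U : Ultrafilter κ.ord.ToType, Normal U := by
  classical
  obtain ⟨h0', U, h1, h2'⟩ := h
  let L : Type := κ.ord.ToType
  have hcard : #L = κ := Cardinal.mk_ord_toType _
  have h0 : ℵ₀ < #L := by rw [hcard]; exact h0'
  have h2 : ∀ S : Set (Set L), #S < #L → (∀ s ∈ S, s ∈ U) → ⋂₀ S ∈ U := by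
    rw [hcard]
    exact h2'
  have hIio : ∀ c : L, #{d // d < c} < #L := fun c => by
    have h3 := Cardinal.mk_Iio_lt c (by rw [hcard, Ordinal.type_toType])
    exact h3
  have hne : ∀ c : L, ∀ᶠ a in (U : Filter L), a ≠ c := by
    intro c
    have h3 : ¬ ∀ᶠ a in (U : Filter L), a = c := by
      intro h
      exact h1 c h
    rwa [← Ultrafilter.eventually_not] at h3
  have hlarge : ∀ c : L, ∀ᶠ a in (U : Filter L), c < a := by
    intro c
    have h3 := compl_U h2 (ι := {d // d < c}) (hIio c) (P := fun d a => a ≠ d.1)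
      fun d => hne d.1
    filter_upwards [h3, hne c] with a ha1 ha2
    rcases lt_trichotomy a c with h | h | h
    · exact absurd rfl (ha1 ⟨a, h⟩)
    · exact absurd h ha2
    · exact h
  have hconst : ∀ (g : L → L) (c : L), (∀ᶠ a in (U : Filter L), g a ≤ c) →
      ∃ d, ∀ᶠ a in (U : Filter L), g a = d := by
    intro g c hg
    by_contra hn
    push Not at hn
    have hn' : ∀ d, ∀ᶠ a in (U : Filter L), g a ≠ d := hn
    have h3 := compl_U h2 (ι := {d // d < c}) (hIio c) (P := fun d a => g a ≠ d.1)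
      fun d => hn' d.1
    obtain ⟨a, ha1, ha2, ha3⟩ := (hg.and (h3.and (hn' c))).exists
    rcases ha1.lt_or_eq with h | h
    · exact ha2 ⟨g a, h⟩ rfl
    · exact ha3 h
  obtain ⟨f, hf, hmin⟩ := (wf_U (L := L) h0 h2).has_min
    {f : L → L | ∀ c, ∀ᶠ a in (U : Filter L), c < f a} ⟨id, hlarge⟩
  refine ⟨U.map f, ⟨fun c => ?_, fun g hg => ?_⟩⟩
  · exact hf c
  · have h3 : ¬ ∀ c, ∀ᶠ a in (U : Filter L), c < g (f a) := fun h => hmin (fun a => g (f a)) h hg
    push Not at h3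
    obtain ⟨c, hc⟩ := h3
    obtain ⟨d, hd⟩ := hconst (fun a => g (f a)) c hc
    exact ⟨d, hd⟩

section

variable {K : Type} [LinearOrder K] [WellFoundedLT K] {U : Ultrafilter K} {X : K → Prop}
  {ℓ : K → K}

/-- The hypothesis is forced. -/
theorem Gd.hypothesisN (G : Gd U X ℓ) (p : QQ U X ℓ) : p ∈ HypothesisN (QQ U X ℓ) K := by
  have hne := G.nonempty
  refine ⟨?_, fun h => ?_⟩
  · rw [mem_fex]
    exact fun q _ => ⟨q, le_rfl, NW, G.isMeasN q⟩
  · rw [mem_fimp]
    intro q hq hf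
    obtain ⟨q', hq', b, hb⟩ := G.bound hf
    obtain ⟨α, hX, hα⟩ := G.X_clo b
    refine ⟨q', hq', ?_⟩
    rw [mem_fex]
    intro r hr
    refine ⟨r, le_rfl, α, (G.X_inac α hX).ne, fun ν => ?_, fun d => G.dns hX d r⟩
    rw [mem_fimp]
    intro r1 hr1 hν
    refine ⟨r1, le_rfl, fun v => ?_⟩
    rw [mem_fimp]
    intro r2 hr2 hv
    exact ⟨r2, le_rfl, (hb ν r2 ((hr2.trans hr1).trans hr) v hv).trans (hα ν hν)⟩

end

/-- From a measurable cardinal the hypothesis can be forced. -/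
theorem forced {κ : Cardinal.{0}} (h : IsMeasurable κ) :
    ∃ (P : Type) (_ : Preorder P), Nonempty P ∧ ∀ p : P, p ∈ HypothesisN P κ.ord.ToType := by
  obtain ⟨U, hU⟩ := exists_normal h
  obtain ⟨h1, h2, h3, ⟨X, h4, h5, h6⟩, ℓ, h7, h8, h9⟩ := Pool.Agent.TH785.J661.ground hU
  have G : Gd U X ℓ := ⟨hU, h1, h2, h3, h4, h5, h6, h7, h8, h9⟩
  have hne := G.nonempty
  exact ⟨QQ U X ℓ, inferInstance, ⟨(⊤, Classical.arbitrary _)⟩, fun p => G.hypothesisN p⟩

/-- The ZFC part. -/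
theorem conclusion {K : Type} [LinearOrder K] [WellFoundedLT K] (h : Hypothesis K) :
    Ordinal.type (· < · : K → K → Prop) = (#K).ord ∧ IsMeasurable #K ∧
      ∀ (d : ℕ) (σ : Ordinal.{0}), σ < (#K).ord → HL d σ #K := by
  obtain ⟨hW, hyp⟩ := h
  obtain ⟨h1, h2, h3⟩ := Pool.Agent.TH785.J662.measurable_of hW fun f => by
    obtain ⟨α, h1, h2, -⟩ := hyp f
    exact ⟨α, h1, h2⟩
  refine ⟨h1, h2, fun d σ hσ T hT c hc => ?_⟩
  have habove : Above #K := fun hT _ hbT hb _ hζ hbζ => ktree_above h3 hT hbT hb hζ hbζ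
  obtain ⟨j, hj, hgood⟩ := good_of habove h1 h3 hyp hT (fun i => coding h3 (hT i)) hσ c hc
  obtain ⟨A, hA1, hA2, T', hT', hreg, hcol⟩ :=
    Pool.Agent.TH515.J665.strong_subtrees_of h3 habove hT c hgood
  exact ⟨A, hA1, hA2, T', hT', hreg, j, hj, hcol⟩

end Pool.Agent.TH760
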