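import Pool.Agent.TH760.Tail
import Pool.Agent.TH760.Defs

/-!
# The measure in the extension
-/

set_option autoImplicit false
set_option linter.unusedSectionVars false

namespace Pool.Agent.TH760

open Cardinal Set Filter
open Pool.Agent.W868.KP (Normal KClosed meet diag compl regular)
open Pool.Agent.Helper669.Forcing

section

variable {K : Type} [LinearOrder K] [WellFoundedLT K] {U : Ultrafilter K} {X : K → Prop}
  {ℓ : K → K}

/-- The condition `q` together with the value of its tail part at `ξ`. -/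
def ext (q : QQ U X ℓ) (ξ : K) : QQ U X ℓ := (q.1.join (q.2.fn ξ), q.2)

/-- The name of the measure. -/
def NW (A : K → Set (QQ U X ℓ)) : Set (QQ U X ℓ) :=
  {q | ∀ᶠ ξ in (U : Filter K), ext q ξ ∈ meets (A ξ)}

theorem ext_le (q : QQ U X ℓ) (ξ : K) : ext q ξ ≤ q := ⟨Cnd.join_le_left, le_rfl⟩

variable (G : Gd U X ℓ)

include G

theorem Gd.eventually_lt (p : Cnd K X ℓ) :
    ∀ᶠ ξ in (U : Filter K), ∀ x, p.fn x ≠ none → x.1 < ξ := by
  obtain ⟨a, ha⟩ := p.bd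
  filter_upwards [G.nrm.large a] with ξ hξ x hx using (ha x hx).trans hξ

theorem join_hi {p q : Cnd K X ℓ} {ξ : K} (hp : ∀ x, p.fn x ≠ none → x.1 < ξ)
    (hq : Cnd.Hi ξ q) : p.join q ≤ q := by
  have h1 : Cnd.Low ξ p := fun x hx => (hp x hx).le
  exact Cnd.join_low_hi_right h1 hq

theorem Gd.ext_mono {q' q : QQ U X ℓ} (h : q' ≤ q) :
    ∀ᶠ ξ in (U : Filter K), ext q' ξ ≤ ext q ξ := by
  filter_upwards [G.eventually_lt q'.1, show ∀ᶠ ξ in (U : Filter K), q'.2.fn ξ ≤ q.2.fn ξ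
    from h.2] with ξ h1 h2
  exact ⟨Cnd.le_join (Cnd.join_le_left.trans h.1) ((join_hi G h1 (q'.2.hi ξ)).trans h2), h.2⟩

theorem Gd.down_NW (A : K → Set (QQ U X ℓ)) : Down (NW A) := by
  intro q hq q' hq'
  have h1 : ∀ᶠ ξ in (U : Filter K), ext q ξ ∈ meets (A ξ) := hq
  show ∀ᶠ ξ in (U : Filter K), _
  filter_upwards [G.ext_mono hq', h1] with ξ h2 h3 using down_meets _ _ h3 _ h2

theorem Gd.const_small {ι : Type} {c : K} (hc : #ι ≤ #(Iio c)) (h : K → ι) :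
    ∃ v, ∀ᶠ a in (U : Filter K), h a = v := by
  obtain ⟨e⟩ := hc
  obtain ⟨k, hk⟩ := Pool.Agent.W868.KP.const G.nrm (f := fun a => (e (h a) : K)) (c := c)
    (Eventually.of_forall fun a => (e (h a)).2)
  have := G.neBot
  obtain ⟨a, ha⟩ := hk.exists
  refine ⟨h a, ?_⟩
  filter_upwards [hk] with a' ha'
  exact e.injective (Subtype.ext (ha'.trans ha.symm))

/-- The conditions restricted below `ξ`. -/
theorem split_parts {ξ : K} (hξ : ¬ X ξ) {p s g : Cnd K X ℓ}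
    (hp : ∀ x v, x.1 < ξ → s.fn x = some v → p.fn x = some v)
    (hg : ∀ x v, ξ < x.1 → s.fn x = some v → g.fn x = some v) (hpl : ∀ x, p.fn x ≠ none → x.1 < ξ) :
    p.join g ≤ s := by
  intro x v hv
  have h1 : X x.1 := (s.ok x v hv).1
  rcases lt_trichotomy x.1 ξ with h | h | h
  · exact Cnd.join_left (hp x v h hv)
  · rw [h] at h1
    exact absurd h1 hξ
  · have h2 : p.fn x = none := by
      by_contra hc
      exact absurd (hpl x hc) h.asymm
    rw [Cnd.join_right h2]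
    exact hg x v h hv

/-- Deciding among few alternatives. -/
theorem Gd.decide {ι : Type} [Nonempty ι] {c : K} (hc : #ι ≤ #(Iio c))
    (B : ι → K → Set (QQ U X ℓ)) (q : QQ U X ℓ)
    (h : ∀ᶠ ξ in (U : Filter K), ∀ r ≤ ext q ξ, ∃ r' ≤ r, ∃ i, r' ∈ meets (B i ξ)) :
    ∃ q' ≤ q, ∃ i, q' ∈ NW (B i) := by
  classical
  have hne := G.nonempty
  have hI : #(ι × K) ≤ #K := by
    rw [Cardinal.mk_prod, Cardinal.lift_id, Cardinal.lift_id]
    exact (mul_le_mul' (hc.trans (G.small c).le) le_rfl).trans (Cardinal.mul_eq_self G.inf).le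
  obtain ⟨f, hf, n, hn⟩ := G.reduce_all hI (fun z => B z.1 z.2) q
  -- the decisions
  have h1 : ∀ ξ, ∃ (s : Cnd K X ℓ) (i : ι), (ext (q.1, f) ξ ≤ ext q ξ) →
      (∀ r ≤ ext q ξ, ∃ r' ≤ r, ∃ i, r' ∈ meets (B i ξ)) →
      s ≤ q.1.join (f.fn ξ) ∧ ∃ b ∈ n (i, ξ), s ≤ b := by
    intro ξ
    by_cases h2 : (ext (q.1, f) ξ ≤ ext q ξ) ∧
        ∀ r ≤ ext q ξ, ∃ r' ≤ r, ∃ i, r' ∈ meets (B i ξ)
    · obtain ⟨r', hr', i, hi⟩ := h2.2 _ h2.1
      rw [hn r' hr'.2 (i, ξ)] at hi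
      obtain ⟨r2, hr2, t, ⟨b, hb, htb⟩, h3⟩ := hi r' le_rfl
      exact ⟨r2.1, i, fun _ _ => ⟨hr2.1.trans hr'.1, b, hb, h3.1.trans htb⟩⟩
    · exact ⟨⊤, Classical.arbitrary ι, fun h3 h4 => absurd ⟨h3, h4⟩ h2⟩
  choose s i hs using h1
  have h2 : ∀ᶠ ξ in (U : Filter K), s ξ ≤ q.1.join (f.fn ξ) ∧ ∃ b ∈ n (i ξ, ξ), s ξ ≤ b := by
    filter_upwards [h, G.ext_mono (show (q.1, f) ≤ q from ⟨le_rfl, hf⟩)] with ξ h3 h4
    exact hs ξ h4 h3
  obtain ⟨i0, hi0⟩ := G.const_small hc i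
  obtain ⟨p0, hp0⟩ := G.press_cnd (fun ξ => (s ξ).restr fun x => x.1 < ξ)
    (Eventually.of_forall fun ξ x hx => (Cnd.restr_ne hx).1)
  let g : Tl U X ℓ := ⟨fun ξ => (hiPart ξ (s ξ)).1, fun ξ => (hiPart ξ (s ξ)).2⟩
  have hgf : g ≤ f := by
    show ∀ᶠ ξ in (U : Filter K), (hiPart ξ (s ξ)).1 ≤ f.fn ξ
    filter_upwards [h2, G.eventually_lt q.1] with ξ h3 h4
    exact hiPart_le (h3.1.trans (join_hi G h4 (f.hi ξ))) (f.hi ξ)
  have := G.neBot
  refine ⟨(p0, g), ⟨?_, hgf.trans hf⟩, i0, ?_⟩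
  · obtain ⟨ξ, h3, h4, h5⟩ := (h2.and ((G.eventually_lt q.1).and hp0)).exists
    intro x v hv
    have h6 : x.1 < ξ := h4 x (by rw [hv]; exact Option.some_ne_none v)
    show p0.fn x = some v
    rw [← h5]
    show ite _ _ _ = _
    rw [if_pos h6]
    exact h3.1 x v (Cnd.join_left hv)
  · show ∀ᶠ ξ in (U : Filter K), _
    filter_upwards [h2, hi0, hp0, G.X_null] with ξ h3 h4 h5 h6
    obtain ⟨-, b, hb, hsb⟩ := h3
    rw [h4] at hb
    rw [hn (ext (p0, g) ξ) hgf (i0, ξ)]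
    refine meets_of_mem ⟨b, hb, ?_⟩
    refine le_trans ?_ hsb
    refine split_parts G h6 ?_ ?_ ?_
    · intro x v hx hv
      show p0.fn x = some v
      rw [← h5]
      show ite _ _ _ = _
      rw [if_pos hx, hv]
    · intro x v hx hv
      show ite _ _ _ = _
      rw [if_pos hx, hv]
    · intro x hx
      have hx' : p0.fn x ≠ none := hx
      rw [← h5] at hx'
      exact (Cnd.restr_ne hx').1

theorem not_both {A : Set (QQ U X ℓ)} {q : QQ U X ℓ} (h1 : q ∈ meets A)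
    (h2 : q ∈ meets (fnot (meets A))) : False := by
  obtain ⟨r, hr, s, hs, hrs⟩ := h2 q le_rfl
  exact hs r hrs (down_meets _ _ h1 _ hr)

theorem Gd.NW_not_both {A : K → Set (QQ U X ℓ)} {q : QQ U X ℓ} (h1 : q ∈ NW A)
    (h2 : q ∈ NW fun ξ => fnot (meets (A ξ))) : False := by
  have := G.neBot
  have h1' : ∀ᶠ ξ in (U : Filter K), ext q ξ ∈ meets (A ξ) := h1
  have h2' : ∀ᶠ ξ in (U : Filter K), ext q ξ ∈ meets (fnot (meets (A ξ))) := h2
  obtain ⟨ξ, h3, h4⟩ := (h1'.and h2').exists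
  exact not_both G h3 h4

/-- Forced implications. -/
theorem meets_imp {A B : Set (QQ U X ℓ)} {q : QQ U X ℓ}
    (h : q ∈ fimp (meets A) (meets B)) (hA : q ∈ meets A) : q ∈ meets B := by
  rw [← meets_meets]
  intro q1 hq1
  obtain ⟨r, hr, h'⟩ := mem_fimp.1 h q1 hq1 (down_meets _ _ hA _ hq1)
  exact ⟨r, hr, r, h', le_rfl⟩

/-- The measure is forced. -/
theorem Gd.isMeasN (q0 : QQ U X ℓ) : q0 ∈ IsMeasN (P := QQ U X ℓ) (K := K) NW := by
  classical
  have hne := G.nonempty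
  refine ⟨fun x y => ?_, fun x => ?_, fun x => ?_, fun η x => ?_, fun ζ => ?_⟩
  · rw [mem_fimp]
    rintro q hq ⟨h1, h2⟩
    obtain ⟨r, hr, h3⟩ := exists_of_meets (G.down_NW x) h1
    refine ⟨r, hr, meets_of_mem ?_⟩
    have h3' : ∀ᶠ ξ in (U : Filter K), ext r ξ ∈ meets (x ξ) := h3
    show ∀ᶠ ξ in (U : Filter K), _
    filter_upwards [h3'] with ξ h4
    exact meets_imp G (down_fimp _ _ _ (h2 ξ) _ ((ext_le r ξ).trans hr)) h4
  · rw [mem_fimp]
    intro q hq h1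
    obtain ⟨b, hb, -⟩ := G.exists_inac (Classical.arbitrary K)
    have hcard : #Bool ≤ #(Iio b) := by
      rw [Cardinal.mk_bool]
      exact (Cardinal.natCast_lt_aleph0 (n := 2)).le.trans hb.inf
    obtain ⟨q', hq', i, hi⟩ := G.decide (ι := Bool) hcard
      (fun i ξ => if i then x ξ else fnot (meets (x ξ))) q (Eventually.of_forall fun ξ r _ => by
        by_cases h : ∃ r' ≤ r, r' ∈ meets (x ξ)
        · obtain ⟨r', hr', h⟩ := h
          exact ⟨r', hr', true, by simpa using h⟩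
        · push Not at h
          refine ⟨r, le_rfl, false, meets_of_mem ?_⟩
          show r ∈ (if (false = true) then x ξ else fnot (meets (x ξ)))
          rw [if_neg Bool.false_ne_true]
          exact h)
    cases i with
    | true =>
      simp only [if_true] at hi
      exact absurd (meets_of_mem hi) (h1 q' hq')
    | false =>
      simp only [Bool.false_eq_true, if_false] at hi
      exact ⟨q', hq', meets_of_mem hi⟩
  · rw [mem_fimp]
    intro q hq h1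
    obtain ⟨r, hr, h3⟩ := exists_of_meets (G.down_NW x) h1
    have h3' : ∀ᶠ ξ in (U : Filter K), ext r ξ ∈ meets (x ξ) := h3
    have := G.neBot
    obtain ⟨ξ, h4⟩ := h3'.exists
    exact ⟨ext r ξ, (ext_le r ξ).trans hr, mem_fex_of_mem ξ (down_meets _) h4⟩
  · rw [mem_fimp]
    intro q hq h1
    obtain ⟨b, hb, hηb⟩ := G.exists_inac η
    have hcard : #(Option (Iio η)) ≤ #(Iio b) := by
      rw [Cardinal.mk_option]
      exact (Cardinal.add_lt_of_lt hb.inf (hb.2 η hηb) (Cardinal.one_lt_aleph0.trans_le hb.inf)).le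
    obtain ⟨q', hq', i, hi⟩ := G.decide (ι := Option (Iio η)) hcard
      (fun i ξ => match i with
        | none => fall fun ζ => fimp (fground (ζ < η)) (meets (x ζ ξ))
        | some ζ => fnot (meets (x ζ ξ))) q (Eventually.of_forall fun ξ r _ => by
        by_cases h : ∃ ζ : Iio η, ∃ r' ≤ r, r' ∈ fnot (meets (x ζ ξ))
        · obtain ⟨ζ, r', hr', h⟩ := h
          exact ⟨r', hr', some ζ, meets_of_mem h⟩
        · push Not at h
          refine ⟨r, le_rfl, none, meets_of_mem ?_⟩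
          intro ζ
          rw [mem_fimp]
          intro r1 hr1 hζ
          have h5 := h ⟨ζ, hζ⟩ r1 hr1
          have h6 : ∃ r' ≤ r1, r' ∈ meets (x ζ ξ) := by
            by_contra hc
            push Not at hc
            exact h5 hc
          exact h6)
    cases i with
    | none => exact ⟨q', hq', meets_of_mem hi⟩
    | some ζ =>
      obtain ⟨r, hr, h5⟩ := mem_fimp.1 (h1 ζ) q' hq' ζ.2
      obtain ⟨r', hr', h6⟩ := exists_of_meets (G.down_NW _) h5
      exact (G.NW_not_both h6 (G.down_NW _ _ hi _ (hr'.trans hr))).elim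
  · refine meets_of_mem ?_
    show ∀ᶠ ξ in (U : Filter K), _
    filter_upwards [G.nrm.large ζ] with ξ hξ
    exact meets_of_mem (ne_of_gt hξ)

/-- Functions in the extension are bounded by functions of the ground model. -/
theorem Gd.bound {h : K → K → Set (QQ U X ℓ)} {q : QQ U X ℓ} (hq : q ∈ IsFun h) :
    ∃ q' ≤ q, ∃ b : K → K, ∀ ν, ∀ r ≤ q', ∀ v, r ∈ meets (h ν v) → v < b ν := by
  classical
  have hne := G.nonempty
  have hI : #(K × K) ≤ #K := by
    rw [Cardinal.mk_prod, Cardinal.lift_id]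
    exact (Cardinal.mul_eq_self G.inf).le
  obtain ⟨f, hf, n, hn⟩ := G.reduce_all hI (fun z => h z.1 z.2) q
  have hq' : (q.1, f) ≤ q := ⟨le_rfl, hf⟩
  refine ⟨(q.1, f), hq', ?_⟩
  suffices H : ∀ ν, ∃ b, ∀ r ≤ (q.1, f), ∀ v, r ∈ meets (h ν v) → v < b by
    choose b hb using H
    exact ⟨b, hb⟩
  intro ν
  by_contra hc
  push Not at hc
  have h1 : ∀ ξ, ∃ (s : Cnd K X ℓ) (v : K), s ≤ q.1 ∧ ξ ≤ v ∧
      (s, f) ∈ meets (h ν v) := by
    intro ξ
    obtain ⟨r, hr, v, hv, hξ⟩ := hc ξ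
    rw [hn r hr.2 (ν, v)] at hv
    obtain ⟨r2, hr2, t, ⟨b, hb, htb⟩, h3⟩ := hv r le_rfl
    refine ⟨r2.1, v, hr2.1.trans hr.1, hξ, ?_⟩
    rw [hn (r2.1, f) le_rfl (ν, v)]
    exact meets_of_mem ⟨b, hb, h3.1.trans htb⟩
  choose s v hs hv hm using h1
  obtain ⟨p0, hp0⟩ := G.press_cnd (fun ξ => (s ξ).restr fun x => x.1 < ξ)
    (Eventually.of_forall fun ξ x hx => (Cnd.restr_ne hx).1)
  have := G.neBot
  obtain ⟨ξ0, h2⟩ := hp0.exists
  obtain ⟨ξ1, h3, h4, h5⟩ := (hp0.and ((G.nrm.large (v ξ0)).and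
    (G.eventually_lt (s ξ0)))).exists
  have hcomp : (s ξ0).join (s ξ1) ≤ s ξ1 := by
    refine Cnd.join_le_right fun x a b ha hb => ?_
    have h6 : x.1 < ξ1 := h5 x (by rw [ha]; exact Option.some_ne_none a)
    have h7 : p0.fn x = some b := by
      rw [← h3]
      show ite _ _ _ = _
      rw [if_pos h6, hb]
    rw [← h2] at h7
    by_cases h8 : x.1 < ξ0
    · rw [Cnd.restr_of (S := fun x : Ix K => x.1 < ξ0) h8, ha] at h7
      exact Option.some_inj.1 h7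
    · rw [Cnd.restr_of_not (S := fun x : Ix K => x.1 < ξ0) h8] at h7
      cases h7
  have h6 : ((s ξ0).join (s ξ1), f) ∈ meets (h ν (v ξ0)) :=
    down_meets _ _ (hm ξ0) _ ⟨Cnd.join_le_left, le_rfl⟩
  have h7 : ((s ξ0).join (s ξ1), f) ∈ meets (h ν (v ξ1)) :=
    down_meets _ _ (hm ξ1) _ ⟨hcomp, le_rfl⟩
  have h8 : ((s ξ0).join (s ξ1), f) ∈ IsFun h :=
    down_IsFun h _ hq _ ⟨Cnd.join_le_left.trans (hs ξ0), hf⟩
  have h9 := IsFun.unique h8 h6 h7
  exact absurd (hv ξ1) (not_le.2 (h9 ▸ h4))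

end

end Pool.Agent.TH760
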