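import Pool.Agent.TH760.Meas

/-!
# Codes of names; conditions concentrated on one level
-/

set_option autoImplicit false
set_option linter.unusedSectionVars false

namespace Pool.Agent.TH760

open Cardinal Set Filter
open Pool.Agent.W868.KP (Normal KClosed meet diag compl regular)
open Pool.Agent.Helper669.Forcing

section

variable {K : Type} [LinearOrder K] [WellFoundedLT K] {U : Ultrafilter K} {X : K → Prop}
  {ℓ : K → K}

theorem mem_AgreeN {P : Type} [Preorder P] {a : K} {x y : K → K → Set P} {r : P} :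
    r ∈ AgreeN a x y ↔ ∀ η < a, ∀ θ < a, ∀ r' ≤ r, (r' ∈ meets (x η θ) ↔ r' ∈ meets (y η θ)) := by
  constructor
  · intro h η hη θ hθ r' hr'
    have key : ∀ q1 ≤ r, ∃ q2 ≤ q1, q2 ∈ fiff (meets (x η θ)) (meets (y η θ)) := by
      intro q1 hq1
      obtain ⟨q2, hq2, h2⟩ := mem_fimp.1 (h η) q1 hq1 hη
      obtain ⟨q3, hq3, h3⟩ := mem_fimp.1 (h2 θ) q2 le_rfl hθ
      exact ⟨q3, hq3.trans hq2, h3⟩
    constructor
    · intro hx
      rw [← meets_meets]
      intro q1 hq1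
      obtain ⟨q2, hq2, h2⟩ := key q1 (hq1.trans hr')
      obtain ⟨q3, hq3, h3⟩ := mem_fimp.1 h2.1 q2 le_rfl (down_meets _ _ hx _ (hq2.trans hq1))
      exact ⟨q3, hq3.trans hq2, q3, h3, le_rfl⟩
    · intro hx
      rw [← meets_meets]
      intro q1 hq1
      obtain ⟨q2, hq2, h2⟩ := key q1 (hq1.trans hr')
      obtain ⟨q3, hq3, h3⟩ := mem_fimp.1 h2.2 q2 le_rfl (down_meets _ _ hx _ (hq2.trans hq1))
      exact ⟨q3, hq3.trans hq2, q3, h3, le_rfl⟩
  · intro h η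
    rw [mem_fimp]
    intro q1 hq1 hη
    refine ⟨q1, le_rfl, fun θ => ?_⟩
    rw [mem_fimp]
    intro q2 hq2 hθ
    refine ⟨q2, le_rfl, ?_, ?_⟩
    · rw [mem_fimp]
      intro q3 hq3 h3
      exact ⟨q3, le_rfl, (h η hη θ hθ q3 (hq3.trans (hq2.trans hq1))).1 h3⟩
    · rw [mem_fimp]
      intro q3 hq3 h3
      exact ⟨q3, le_rfl, (h η hη θ hθ q3 (hq3.trans (hq2.trans hq1))).2 h3⟩

theorem Inac.pi (α : K) (hα : Inac α) {T : Type} (hT : #T < #(Iio α)) (d : ℕ) :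
    #(Fin d → T) < #(Iio α) := by
  refine lt_of_le_of_lt ?_ (hα.pow (hα.prod (S := Fin d) (T := T) ?_ hT))
  · refine Cardinal.mk_le_of_injective (f := fun g => {z : Fin d × T | g z.1 = z.2}) ?_
    intro g g' h
    funext i
    have h1 : ((i, g i) : Fin d × T) ∈ {z : Fin d × T | g z.1 = z.2} := rfl
    have h2 : {z : Fin d × T | g z.1 = z.2} = {z : Fin d × T | g' z.1 = z.2} := h
    rw [h2] at h1
    exact h1.symm
  · rw [Cardinal.mk_fin]
    exact (Cardinal.natCast_lt_aleph0).trans_le hα.inf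

variable (G : Gd U X ℓ)

include G

/-- All sets of conditions bounded below `α` are coded by elements below `α`. -/
theorem Gd.exists_code {α : K} (hα : Inac α) : ∃ φ : K → Set (Cnd K X ℓ),
    ∀ a < α, ∀ n : Set (Cnd K X ℓ), (∀ b ∈ n, Cnd.Low a b) → ∃ ν < α, φ ν = n := by
  classical
  have h1 : #({n | ∃ a : Iio α, ∀ b ∈ n, Cnd.Low (a : K) b} : Set (Set (Cnd K X ℓ))) ≤
      #(Iio α) := by
    have h2 : ({n | ∃ a : Iio α, ∀ b ∈ n, Cnd.Low (a : K) b} : Set (Set (Cnd K X ℓ))) =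
        ⋃ a : Iio α, {n | ∀ b ∈ n, Cnd.Low (a : K) b} := by
      ext n
      simp
    rw [h2]
    refine (Cardinal.mk_iUnion_le _).trans ?_
    refine (mul_le_mul_right (ciSup_le' (a := #(Iio α)) fun a => ?_) _).trans ?_
    · refine le_trans ?_ (hα.pow (G.card_low hα a.2)).le
      refine Cardinal.mk_le_of_injective
        (f := fun n => {b : ({p | Cnd.Low (a : K) p} : Set (Cnd K X ℓ)) | b.1 ∈ n.1}) ?_
      intro n n' h
      refine Subtype.ext (Set.ext fun b => ?_)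
      have h3 : {b : ({p | Cnd.Low (a : K) p} : Set (Cnd K X ℓ)) | b.1 ∈ n.1} =
        {b : ({p | Cnd.Low (a : K) p} : Set (Cnd K X ℓ)) | b.1 ∈ n'.1} := h
      constructor
      · intro hb
        have h4 : (⟨b, n.2 b hb⟩ : ({p | Cnd.Low (a : K) p} : Set (Cnd K X ℓ))) ∈
          {b : ({p | Cnd.Low (a : K) p} : Set (Cnd K X ℓ)) | b.1 ∈ n.1} := hb
        rw [h3] at h4
        exact h4
      · intro hb
        have h4 : (⟨b, n'.2 b hb⟩ : ({p | Cnd.Low (a : K) p} : Set (Cnd K X ℓ))) ∈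
          {b : ({p | Cnd.Low (a : K) p} : Set (Cnd K X ℓ)) | b.1 ∈ n'.1} := hb
        rw [← h3] at h4
        exact h4
    · rw [Cardinal.mul_eq_self hα.inf]
  obtain ⟨e⟩ := h1
  refine ⟨fun ν => {b | ∃ n : ({n | ∃ a : Iio α, ∀ b ∈ n, Cnd.Low (a : K) b} :
    Set (Set (Cnd K X ℓ))), (e n : K) = ν ∧ b ∈ n.1}, fun a ha n hn => ?_⟩
  let n' : ({n | ∃ a : Iio α, ∀ b ∈ n, Cnd.Low (a : K) b} : Set (Set (Cnd K X ℓ))) :=
    ⟨n, ⟨a, ha⟩, hn⟩
  refine ⟨e n', (e n').2, ?_⟩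
  ext b
  constructor
  · rintro ⟨m, hm, hb⟩
    have h2 := e.injective (Subtype.ext hm)
    rw [h2] at hb
    exact hb
  · intro hb
    exact ⟨n', rfl, hb⟩

/-- For `ξ < α` the names of binary relations on `ξ` given by conditions of levels at most `ξ` are
enumerated in fewer than `α` steps. -/
theorem Gd.exists_names {α ξ : K} (hα : Inac α) (hξ : ξ < α) :
    ∃ μ < α, ∃ E : K → K → K → Set (Cnd K X ℓ), (∀ ν η θ, ∀ b ∈ E ν η θ, Cnd.Low ξ b) ∧
      ∀ n : K → K → Set (Cnd K X ℓ), (∀ η θ, ∀ b ∈ n η θ, Cnd.Low ξ b) →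
        ∃ ν < μ, ∀ η < ξ, ∀ θ < ξ, E ν η θ = n η θ := by
  classical
  let L : Type := ({p | Cnd.Low ξ p} : Set (Cnd K X ℓ))
  have h1 : #(Set (Iio ξ × Iio ξ × L)) < #(Iio α) :=
    hα.pow (hα.prod (hα.2 ξ hξ) (hα.prod (hα.2 ξ hξ) (G.card_low hα hξ)))
  obtain ⟨e⟩ : Nonempty (Set (Iio ξ × Iio ξ × L) ↪ Iio α) := h1.le
  obtain ⟨μ, hμ, h⟩ := hα.bdd (S := range fun y => (e y : K)) (by
    rintro _ ⟨y, rfl⟩
    exact (e y).2) (Cardinal.mk_range_le.trans_lt h1)
  refine ⟨μ, hμ, fun ν η θ => {b | ∃ y, (e y : K) = ν ∧ ∃ (h1 : η < ξ) (h2 : θ < ξ)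
    (h3 : Cnd.Low ξ b), (⟨η, h1⟩, ⟨θ, h2⟩, ⟨b, h3⟩) ∈ y}, ?_, ?_⟩
  · rintro ν η θ b ⟨y, -, -, -, h3, -⟩
    exact h3
  · intro n hn
    let y : Set (Iio ξ × Iio ξ × L) := {z | z.2.2.1 ∈ n z.1 z.2.1}
    refine ⟨e y, h _ ⟨y, rfl⟩, fun η hη θ hθ => ?_⟩
    ext b
    constructor
    · rintro ⟨y', hy', h1, h2, h3, h4⟩
      have h5 := e.injective (Subtype.ext hy')
      rw [h5] at h4
      exact h4
    · intro hb
      exact ⟨y, rfl, hη, hθ, hn _ _ b hb, hb⟩

end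

/-! ### Conditions on one level -/

section

variable {K : Type} [LinearOrder K] {X : K → Prop} {ℓ : K → K}

open Classical in
/-- The condition with values `w` on the level `α`. -/
noncomputable def atL (α : K) (hX : X α) (_hα : Inac α) (hgt : ∃ a, α < a)
    (w : K × K × K → Option K)
    (hw : ∀ j v, w j = some v → j.1 < ℓ α ∧ j.2.1 < α ∧ j.2.2 < α ∧ v < α)
    (hs : #({j | w j ≠ none} : Set (K × K × K)) < #(Iio α)) : Cnd K X ℓ where
  fn x := if x.1 = α then w x.2 else none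
  ok x v h := by
    by_cases hx : x.1 = α
    · rw [if_pos hx] at h
      obtain ⟨h1, h2, h3, h4⟩ := hw _ _ h
      rw [hx]
      exact ⟨hX, h1, h2, h3, h4⟩
    · rw [if_neg hx] at h
      cases h
  bd := by
    obtain ⟨a, ha⟩ := hgt
    refine ⟨a, fun x hx => ?_⟩
    by_cases h : x.1 = α
    · rw [h]
      exact ha
    · rw [if_neg h] at hx
      exact absurd rfl hx
  sm b hb := by
    by_cases hab : α ≤ b
    · have h1 : #(Iio α) ≤ #(Iio b) := Cardinal.mk_le_mk_of_subset (Iio_subset_Iio hab)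
      refine lt_of_lt_of_le (lt_of_le_of_lt ?_ hs) h1
      refine Cardinal.mk_le_of_injective (f := fun x => ⟨x.1.2, fun h => x.2.2 (by
        by_cases hx : x.1.1 = α
        · rw [if_pos hx, h]
        · rw [if_neg hx])⟩) ?_
      rintro ⟨x, hx, hx'⟩ ⟨y, hy, hy'⟩ h
      have h2 : x.2 = y.2 := congrArg (fun z : ({j | w j ≠ none} : Set (K × K × K)) => z.1) h
      have h3 : x.1 = α := by
        by_contra hc
        rw [if_neg hc] at hx'
        exact hx' rfl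
      have h4 : y.1 = α := by
        by_contra hc
        rw [if_neg hc] at hy'
        exact hy' rfl
      exact Subtype.ext (Prod.ext (h3.trans h4.symm) h2)
    · have : ({x | x.1 ≤ b ∧ (if x.1 = α then w x.2 else none) ≠ none} : Set (Ix K)) = ∅ := by
        rw [Set.eq_empty_iff_forall_notMem]
        rintro x ⟨hx, hx'⟩
        by_cases h : x.1 = α
        · exact hab (h ▸ hx)
        · rw [if_neg h] at hx'
          exact hx' rfl
      rw [this, Cardinal.mk_eq_zero]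
      exact Cardinal.aleph0_pos.trans_le hb.inf

theorem atL_fn {α : K} {hX : X α} {hα : Inac α} {hgt : ∃ a, α < a}
    {w : K × K × K → Option K}
    {hw : ∀ j v, w j = some v → j.1 < ℓ α ∧ j.2.1 < α ∧ j.2.2 < α ∧ v < α}
    {hs : #({j | w j ≠ none} : Set (K × K × K)) < #(Iio α)} (j : K × K × K) :
    (atL (ℓ := ℓ) α hX hα hgt w hw hs).fn (α, j) = w j := if_pos rfl

theorem atL_low {α : K} {hX : X α} {hα : Inac α} {hgt : ∃ a, α < a}
    {w : K × K × K → Option K}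
    {hw : ∀ j v, w j = some v → j.1 < ℓ α ∧ j.2.1 < α ∧ j.2.2 < α ∧ v < α}
    {hs : #({j | w j ≠ none} : Set (K × K × K)) < #(Iio α)} {x : Ix K}
    (hx : (atL (ℓ := ℓ) α hX hα hgt w hw hs).fn x ≠ none) : x.1 = α := by
  by_contra hc
  exact hx (if_neg hc)

/-- The part of a condition on level `α` is small. -/
theorem small_at {α : K} (hα : Inac α) (p : Cnd K X ℓ) :
    #({j | p.fn (α, j) ≠ none} : Set (K × K × K)) < #(Iio α) := by
  refine lt_of_le_of_lt ?_ (p.sm α hα)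
  refine Cardinal.mk_le_of_injective (f := fun j => ⟨(α, j.1), le_rfl, j.2⟩) ?_
  intro j j' h
  have h1 : ((α, j.1) : Ix K) = (α, j'.1) :=
    congrArg (fun z : ({x | x.1 ≤ α ∧ p.fn x ≠ none} : Set (Ix K)) => z.1) h
  exact Subtype.ext (Prod.mk.inj h1).2

/-- Completing finitely many columns to squares. -/
theorem exists_fill {α : K} (hX : X α) (hα : Inac α) (hgt : ∃ a, α < a) {d : ℕ}
    (b : LowC X ℓ α) (γ : Fin d → K) (hγ : ∀ i, γ i < ℓ α) :
    ∃ b' ≤ b, ∃ ζ < α, (∃ a, a < ζ) ∧ ∀ i η θ, b'.1.fn (α, γ i, η, θ) ≠ none ↔ η < ζ ∧ θ < ζ := by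
  classical
  obtain ⟨v0, hv0⟩ := hα.ne
  obtain ⟨ζ, hζ, hζ'⟩ := hα.bdd
    (S := (fun j : K × K × K => j.2.1) '' {j | b.1.fn (α, j) ≠ none} ∪
      ((fun j : K × K × K => j.2.2) '' {j | b.1.fn (α, j) ≠ none} ∪ {v0})) (by
      rintro x (⟨j, hj, rfl⟩ | ⟨j, hj, rfl⟩ | rfl)
      · exact (b.1.ok' hj).2.2.1
      · exact (b.1.ok' hj).2.2.2
      · exact hv0) (by
      refine hα.union (Cardinal.mk_image_le.trans_lt (small_at hα b.1))
        (hα.union (Cardinal.mk_image_le.trans_lt (small_at hα b.1)) ?_)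
      rw [Cardinal.mk_singleton]
      exact Cardinal.one_lt_aleph0.trans_le hα.inf)
  let w : K × K × K → Option K := fun j =>
    if (∃ i, j.1 = γ i) ∧ j.2.1 < ζ ∧ j.2.2 < ζ then some v0 else none
  have hw1 : ∀ j, w j ≠ none → (∃ i, j.1 = γ i) ∧ j.2.1 < ζ ∧ j.2.2 < ζ := by
    intro j hj
    by_contra hc
    exact hj (if_neg hc)
  have hw : ∀ j v, w j = some v → j.1 < ℓ α ∧ j.2.1 < α ∧ j.2.2 < α ∧ v < α := by
    intro j v hj
    have h1 := hw1 j (by rw [hj]; exact Option.some_ne_none v)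
    have h2 : w j = some v0 := if_pos h1
    obtain ⟨⟨i, hi⟩, h3, h4⟩ := h1
    rw [hj] at h2
    cases h2
    exact ⟨hi ▸ hγ i, h3.trans hζ, h4.trans hζ, hv0⟩
  have hs : #({j | w j ≠ none} : Set (K × K × K)) < #(Iio α) := by
    have h1 : #(Fin d × Iio ζ × Iio ζ) < #(Iio α) := by
      refine hα.prod ?_ (hα.prod (hα.2 ζ hζ) (hα.2 ζ hζ))
      rw [Cardinal.mk_fin]
      exact (Cardinal.natCast_lt_aleph0).trans_le hα.inf
    have h2 : ({j | w j ≠ none} : Set (K × K × K)) ⊆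
        range fun z : Fin d × Iio ζ × Iio ζ => ((γ z.1, (z.2.1 : K), (z.2.2 : K)) : K × K × K) := by
      intro j hj
      obtain ⟨⟨i, hi⟩, h3, h4⟩ := hw1 j hj
      exact ⟨(i, ⟨_, h3⟩, ⟨_, h4⟩), Prod.ext hi.symm (Prod.ext rfl rfl)⟩
    exact (Cardinal.mk_le_mk_of_subset h2).trans_lt (Cardinal.mk_range_le.trans_lt h1)
  refine ⟨⟨b.1.join (atL α hX hα hgt w hw hs), ?_⟩, Cnd.join_le_left, ζ, hζ,
    ⟨v0, hζ' _ (Or.inr (Or.inr rfl))⟩, ?_⟩
  · intro x hx
    rcases Cnd.join_ne hx with h | h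
    · exact b.2 x h
    · exact (atL_low h).le
  · intro i η θ
    constructor
    · intro h
      by_cases h1 : b.1.fn (α, γ i, η, θ) = none
      · have h' : (b.1.join (atL α hX hα hgt w hw hs)).fn (α, γ i, η, θ) ≠ none := h
        rw [Cnd.join_right h1, atL_fn] at h'
        exact (hw1 _ h').2
      · exact ⟨hζ' _ (Or.inl ⟨(γ i, η, θ), h1, rfl⟩), hζ' _ (Or.inr (Or.inl ⟨(γ i, η, θ), h1, rfl⟩))⟩
    · rintro ⟨h1, h2⟩ h3
      have h4 : b.1.fn (α, γ i, η, θ) = none := by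
        by_contra hc
        obtain ⟨v, hv⟩ := Option.ne_none_iff_exists'.1 hc
        have h5 : (b.1.join (atL α hX hα hgt w hw hs)).fn (α, γ i, η, θ) = some v :=
          Cnd.join_left hv
        rw [show (b.1.join (atL α hX hα hgt w hw hs)).fn (α, γ i, η, θ) = none from h3] at h5
        cases h5
      have h5 : (b.1.join (atL α hX hα hgt w hw hs)).fn (α, γ i, η, θ) = some v0 := by
        rw [Cnd.join_right h4, atL_fn]
        exact if_pos ⟨⟨i, rfl⟩, h1, h2⟩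
      rw [show (b.1.join (atL α hX hα hgt w hw hs)).fn (α, γ i, η, θ) = none from h3] at h5
      cases h5

end

end Pool.Agent.TH760
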