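import Pool.Agent.TH760.Count
import Pool.Agent.Helper669.Forcing

/-!
# The tail forcing, closure, and the reduction of names
-/

set_option autoImplicit false
set_option linter.unusedSectionVars false

namespace Pool.Agent.TH760

open Cardinal Set Filter
open Pool.Agent.W868.KP (Normal KClosed meet diag compl regular)
open Pool.Agent.Helper669.Forcing

/-- The ultraproduct of the tails. -/
structure Tl {K : Type} [LinearOrder K] (U : Ultrafilter K) (X : K → Prop) (ℓ : K → K) :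
    Type where
  fn : K → Cnd K X ℓ
  hi : ∀ a, Cnd.Hi a (fn a)

instance {K : Type} [LinearOrder K] (U : Ultrafilter K) (X : K → Prop) (ℓ : K → K) :
    Preorder (Tl U X ℓ) where
  le p q := ∀ᶠ a in (U : Filter K), p.fn a ≤ q.fn a
  le_refl _ := Eventually.of_forall fun _ => le_rfl
  le_trans _ _ _ h1 h2 := by filter_upwards [h1, h2] with a ha ha' using ha.trans ha'

/-- The conditions of the final forcing. -/
abbrev QQ {K : Type} [LinearOrder K] (U : Ultrafilter K) (X : K → Prop) (ℓ : K → K) : Type :=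
  Cnd K X ℓ × Tl U X ℓ

/-- Low conditions. -/
abbrev LowC {K : Type} [LinearOrder K] (X : K → Prop) (ℓ : K → K) (a : K) : Type :=
  {p : Cnd K X ℓ // Cnd.Low a p}

/-- High conditions. -/
abbrev HiC {K : Type} [LinearOrder K] (X : K → Prop) (ℓ : K → K) (a : K) : Type :=
  {p : Cnd K X ℓ // Cnd.Hi a p}

theorem KClosed.of_embed {J K Q : Type} [LinearOrder J] [LinearOrder K] [Preorder Q] [Nonempty Q]
    (f : J → K) (hf : ∀ i j, i < j → f i < f j) (h : KClosed K Q) : KClosed J Q := by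
  classical
  intro D s hs
  by_cases hne : Nonempty J
  · have hinj : Function.Injective f := by
      intro i j hij
      rcases lt_trichotomy i j with h1 | h1 | h1
      · exact absurd hij (hf _ _ h1).ne
      · exact h1
      · exact absurd hij (hf _ _ h1).ne'
    obtain ⟨q, hq⟩ := h (f '' D) (fun k => s (Function.invFun f k)) (by
      rintro _ ⟨i, hi, rfl⟩ _ ⟨j, hj, rfl⟩ hij
      rw [Function.leftInverse_invFun hinj i, Function.leftInverse_invFun hinj j]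
      refine hs i hi j hj ?_
      rcases lt_trichotomy i j with h1 | h1 | h1
      · exact h1
      · rw [h1] at hij
        exact absurd hij (lt_irrefl _)
      · exact absurd hij (hf _ _ h1).asymm)
    refine ⟨q, fun i hi => ?_⟩
    have := hq (f i) ⟨i, hi, rfl⟩
    rwa [Function.leftInverse_invFun hinj i] at this
  · exact ⟨Classical.arbitrary Q, fun i _ => absurd ⟨i⟩ hne⟩

section

variable {K : Type} [LinearOrder K] [WellFoundedLT K] {U : Ultrafilter K} {X : K → Prop}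
  {ℓ : K → K} (G : Gd U X ℓ)

instance [Nonempty K] : Nonempty (Tl U X ℓ) :=
  ⟨⟨fun _ => ⊤, fun _ _ h => absurd rfl h⟩⟩

instance [Nonempty K] (a : K) : Nonempty (HiC X ℓ a) :=
  ⟨⟨⊤, fun _ h => absurd rfl h⟩⟩

instance [Nonempty K] (a : K) : Nonempty (LowC X ℓ a) :=
  ⟨⟨⊤, fun _ h => absurd rfl h⟩⟩

include G

/-- The conditions above `a` are closed under short descending sequences. -/
theorem Gd.closed_hi (a c : K) (hc : ∀ b, Inac b → a < b → #(Iio c) < #(Iio b)) :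
    KClosed (Iio c) (HiC X ℓ a) := by
  intro D s hs
  have hch : ∀ i ∈ D, ∀ j ∈ D, (s i).1 ≤ (s j).1 ∨ (s j).1 ≤ (s i).1 := by
    intro i hi j hj
    rcases lt_trichotomy i j with h | h | h
    · exact Or.inr (hs i hi j hj h)
    · rw [h]
      exact Or.inl le_rfl
    · exact Or.inl (hs j hj i hi h)
  obtain ⟨u, hu1, hu2⟩ := Cnd.exists_sup D (fun i => (s i).1) hch (by
    choose f hf using fun i : Iio c => (s i).1.bd
    obtain ⟨d, hd⟩ := regular G.nrm (fun k => if h : k < c then f ⟨k, h⟩ else k) c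
    refine ⟨d, fun i _ x hx => (hf i x hx).trans ?_⟩
    have h7 : (i : K) < c := i.2
    have := hd i.1 h7
    rwa [dif_pos h7] at this) (by
    rintro b hb ⟨i, -, x, hx, hx'⟩
    exact hc b hb (lt_of_lt_of_le ((s i).2 x hx') hx))
  refine ⟨⟨u, fun x hx => ?_⟩, hu1⟩
  obtain ⟨i, -, h⟩ := hu2 x hx
  exact (s i).2 x h

theorem Gd.closed_tl : KClosed K (Tl U X ℓ) := by
  classical
  have := G.nonempty
  intro D s h
  have h1 : ∀ a, ∃ u : HiC X ℓ a,
      ((∀ i < a, i ∈ D → ∀ j < a, j ∈ D → i < j → (s j).fn a ≤ (s i).fn a) →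
        ∀ i < a, i ∈ D → u.1 ≤ (s i).fn a) := by
    intro a
    by_cases h2 : ∀ i < a, i ∈ D → ∀ j < a, j ∈ D → i < j → (s j).fn a ≤ (s i).fn a
    · obtain ⟨u, hu⟩ := G.closed_hi a a (fun b hb hab => hb.2 a hab) {i | (i : K) ∈ D}
        (fun i => ⟨(s i).fn a, (s i).hi a⟩) (fun i hi j hj hij => h2 i i.2 hi j j.2 hj hij)
      exact ⟨u, fun _ i hi hiD => hu ⟨i, hi⟩ hiD⟩
    · exact ⟨Classical.arbitrary _, fun h3 => absurd h3 h2⟩
  choose u hu using h1
  refine ⟨⟨fun a => (u a).1, fun a => (u a).2⟩, fun i hi => ?_⟩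
  have h3 : ∀ᶠ a in (U : Filter K), ∀ j < a, ∀ i < j, i ∈ D → j ∈ D →
      (s j).fn a ≤ (s i).fn a := by
    refine diag G.nrm fun j => compl G.nrm fun i hij => ?_
    by_cases h4 : i ∈ D ∧ j ∈ D
    · exact (h i h4.1 j h4.2 hij).mono fun a ha _ _ => ha
    · exact Eventually.of_forall fun a h5 h6 => absurd ⟨h5, h6⟩ h4
  filter_upwards [h3, G.nrm.large i] with a ha hia
  exact hu a (fun i _ hiD j hj hjD hij => ha j hj i hij hiD hjD) i hia hi

theorem Gd.closed_hi_tl (a c : K) (hc : ∀ b, Inac b → a < b → #(Iio c) < #(Iio b)) :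
    KClosed (Iio c) (HiC X ℓ a × Tl U X ℓ) := by
  have := G.nonempty
  exact (G.closed_hi a c hc).prod (KClosed.of_embed (fun i : Iio c => (i : K))
    (fun _ _ h => h) G.closed_tl)

end

/-! ### Liftings -/

/-- `j` maps a product densely into `Q`. -/
structure Lift {B E Q : Type} [Preorder B] [Preorder E] [Preorder Q] (j : B → E → Q) : Prop where
  mono : ∀ {b b' : B} {e e' : E}, b' ≤ b → e' ≤ e → j b' e' ≤ j b e
  lift : ∀ {b : B} {e : E} {q : Q}, q ≤ j b e → ∃ b' ≤ b, ∃ e' ≤ e, j b' e' ≤ q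

theorem Lift.meet {J B E Q : Type} [LinearOrder J] [WellFoundedLT J] [Preorder B] [Preorder E]
    [Preorder Q] {j : B → E → Q} (hj : Lift j) (hE : KClosed J E) (b : J → B) (Φ : J → Set Q)
    (hΦ : ∀ k, Down (Φ k)) (e : E) (hd : ∀ k, ∀ q ≤ j (b k) e, ∃ q' ≤ q, q' ∈ Φ k) :
    ∃ e' ≤ e, ∀ k, ∃ b' ≤ b k, j b' e' ∈ Φ k := by
  refine Pool.Agent.W868.KP.meet hE (fun k e' => ∃ b' ≤ b k, j b' e' ∈ Φ k) ?_ e ?_
  · rintro k e1 e2 h ⟨b', hb', h1⟩
    exact ⟨b', hb', hΦ k _ h1 _ (hj.mono le_rfl h)⟩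
  · intro k e1 he1
    obtain ⟨q, hq, h1⟩ := hd k (j (b k) e1) (hj.mono le_rfl he1)
    obtain ⟨b', hb', e2, he2, h2⟩ := hj.lift hq
    exact ⟨e2, he2, b', hb', hΦ k _ h1 _ h2⟩

theorem meets_meets {P : Type} [Preorder P] {N : Set P} {q : P} :
    q ∈ meets (meets N) ↔ q ∈ meets N := by
  constructor
  · intro h q1 hq1
    obtain ⟨r, hr, s, hs, hrs⟩ := h q1 hq1
    obtain ⟨r', hr', s', hs', h'⟩ := hs r hrs
    exact ⟨r', hr'.trans hr, s', hs', h'⟩
  · intro h q1 hq1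
    exact ⟨q1, le_rfl, q1, down_meets N _ h _ hq1, le_rfl⟩

/-- Reduction of a family of names to names in the factor `B`. -/
theorem Lift.reduce {J B E Q I : Type} [LinearOrder J] [WellFoundedLT J] [Preorder B]
    [Preorder E] [Preorder Q] {j : B → E → Q} (hj : Lift j) (hE : KClosed J E)
    (f : J → I × B) (hf : f.Surjective) (s : I → Set Q) (e : E) :
    ∃ e' ≤ e, ∃ n : I → Set B, ∀ b q, q ≤ j b e' → ∀ i,
      (q ∈ meets (s i) ↔ q ∈ meets {q' | ∃ b' ∈ n i, q' ≤ j b' e'}) := by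
  obtain ⟨e', he', h⟩ := hj.meet hE (fun k => (f k).2)
    (fun k => {q | q ∈ meets (s (f k).1) ∨ q ∈ fnot (meets (s (f k).1))})
    (fun k q hq r hr => hq.imp (fun h => down_meets _ _ h _ hr) (fun h => down_fnot _ _ h _ hr))
    e (fun k q hq => by
      by_cases h : ∃ q' ≤ q, q' ∈ meets (s (f k).1)
      · obtain ⟨q', hq', h⟩ := h
        exact ⟨q', hq', Or.inl h⟩
      · push Not at h
        exact ⟨q, le_rfl, Or.inr h⟩)
  refine ⟨e', he', fun i => {b | j b e' ∈ meets (s i)}, fun b q hq i => ⟨fun hqs => ?_, ?_⟩⟩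
  · intro q1 hq1
    obtain ⟨b1, hb1, e1, he1, h1⟩ := hj.lift (hq1.trans hq)
    obtain ⟨k, hk⟩ := hf (i, b1)
    obtain ⟨b2, hb2, h2⟩ := h k
    rw [hk] at hb2 h2
    have h3 : j b2 e1 ≤ q1 := (hj.mono hb2 le_rfl).trans h1
    rcases h2 with h2 | h2
    · exact ⟨j b2 e1, h3, j b2 e1, ⟨b2, h2, hj.mono le_rfl he1⟩, le_rfl⟩
    · exact absurd (down_meets _ _ hqs _ (h3.trans hq1)) (h2 _ (hj.mono le_rfl he1))
  · intro h1
    rw [← meets_meets]
    intro q1 hq1
    obtain ⟨r, hr, s', ⟨b', hb', hs'⟩, hrs⟩ := h1 q1 hq1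
    exact ⟨r, hr, r, down_meets _ _ hb' _ (hrs.trans hs'), le_rfl⟩

/-! ### The two liftings -/

section

variable {K : Type} [LinearOrder K] {U : Ultrafilter K} {X : K → Prop} {ℓ : K → K}

/-- The condition with low part `b` and high part `e`. -/
def jn (a : K) (b : LowC X ℓ a) (e : HiC X ℓ a × Tl U X ℓ) : QQ U X ℓ :=
  (b.1.join e.1.1, e.2)

open Classical in
/-- The low part. -/
noncomputable def lowPart (a : K) (p : Cnd K X ℓ) : LowC X ℓ a :=
  ⟨p.restr fun x => x.1 ≤ a, fun _ hx => (Cnd.restr_ne hx).1⟩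

open Classical in
/-- The high part. -/
noncomputable def hiPart (a : K) (p : Cnd K X ℓ) : HiC X ℓ a :=
  ⟨p.restr fun x => a < x.1, fun _ hx => (Cnd.restr_ne hx).1⟩

theorem join_parts (a : K) (p : Cnd K X ℓ) : (lowPart a p).1.join (hiPart a p).1 ≤ p := by
  classical
  intro x v hv
  rcases le_or_gt x.1 a with h | h
  · refine Cnd.join_left ?_
    show ite _ _ _ = _
    rw [if_pos h, hv]
  · have h1 : (lowPart a p).1.fn x = none := by
      show ite _ _ _ = _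
      rw [if_neg (not_le.2 h)]
    rw [Cnd.join_right h1]
    show ite _ _ _ = _
    rw [if_pos h, hv]

theorem lowPart_le {a : K} {p q : Cnd K X ℓ} (h : p ≤ q) (hq : Cnd.Low a q) :
    (lowPart a p).1 ≤ q := by
  classical
  intro x v hv
  have h1 := hq x (by rw [hv]; exact Option.some_ne_none v)
  show ite _ _ _ = _
  rw [if_pos h1]
  exact h x v hv

theorem hiPart_le {a : K} {p q : Cnd K X ℓ} (h : p ≤ q) (hq : Cnd.Hi a q) :
    (hiPart a p).1 ≤ q := by
  classical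
  intro x v hv
  have h1 := hq x (by rw [hv]; exact Option.some_ne_none v)
  show ite _ _ _ = _
  rw [if_pos h1]
  exact h x v hv

theorem le_lowPart {a : K} {p : Cnd K X ℓ} : p ≤ (lowPart a p).1 := Cnd.le_restr

theorem le_hiPart {a : K} {p : Cnd K X ℓ} : p ≤ (hiPart a p).1 := Cnd.le_restr

theorem jn_le_low {a : K} {b : LowC X ℓ a} {e : HiC X ℓ a × Tl U X ℓ} : (jn a b e).1 ≤ b.1 :=
  Cnd.join_le_left

theorem jn_le_hi {a : K} {b : LowC X ℓ a} {e : HiC X ℓ a × Tl U X ℓ} : (jn a b e).1 ≤ e.1.1 :=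
  Cnd.join_low_hi_right b.2 e.1.2

theorem le_jn {a : K} {b : LowC X ℓ a} {e : HiC X ℓ a × Tl U X ℓ} {q : QQ U X ℓ}
    (h1 : q.1 ≤ b.1) (h2 : q.1 ≤ e.1.1) (h3 : q.2 ≤ e.2) : q ≤ jn a b e :=
  ⟨Cnd.le_join h1 h2, h3⟩

theorem lift_jn (a : K) : Lift (jn (U := U) (X := X) (ℓ := ℓ) a) where
  mono := fun hb he =>
    le_jn (jn_le_low.trans hb) (jn_le_hi.trans he.1) he.2
  lift := fun {b e q} hq => ⟨lowPart a q.1, lowPart_le (hq.1.trans jn_le_low) b.2,
    (hiPart a q.1, q.2), ⟨hiPart_le (hq.1.trans jn_le_hi) e.1.2, hq.2⟩,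
    ⟨join_parts a q.1, le_rfl⟩⟩

theorem lift_mk : Lift (fun (b : Cnd K X ℓ) (e : Tl U X ℓ) => ((b, e) : QQ U X ℓ)) where
  mono := fun hb he => ⟨hb, he⟩
  lift := fun {_ _ q} hq => ⟨q.1, hq.1, q.2, hq.2, le_rfl⟩

/-- The name given by a set of conditions in the product. -/
def up (n : Set (Cnd K X ℓ)) : Set (QQ U X ℓ) := {q | ∃ b ∈ n, q.1 ≤ b}

theorem down_up (n : Set (Cnd K X ℓ)) : Down (up (U := U) n) := by
  rintro q ⟨b, hb, h⟩ r hr
  exact ⟨b, hb, hr.1.trans h⟩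

end

section

variable {K : Type} [LinearOrder K] [WellFoundedLT K] {U : Ultrafilter K} {X : K → Prop}
  {ℓ : K → K} (G : Gd U X ℓ)

include G

/-- Names of few truth values reduce to names in the low part. -/
theorem Gd.reduce_low (a : K) {I : Type} [Nonempty I]
    (hI : ∀ b, Inac b → a < b → #I < #(Iio b)) (s : I → Set (QQ U X ℓ)) (q : QQ U X ℓ) :
    ∃ q' ≤ q, ∃ n : I → Set (Cnd K X ℓ), (∀ i, ∀ b ∈ n i, Cnd.Low a b) ∧
      ∀ r ≤ q', ∀ i, (r ∈ meets (s i) ↔ r ∈ meets (up (n i))) := by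
  classical
  have hne := G.nonempty
  -- the least inaccessible above `a`
  obtain ⟨b, ⟨hb, hab⟩, hmin⟩ := WellFounded.has_min (wellFounded_lt (α := K))
    {b | Inac b ∧ a < b} (G.exists_inac a)
  have hIB : #(I × LowC X ℓ a) < #(Iio b) := hb.prod (hI b hb hab) (G.card_low hb hab)
  -- an initial segment of size at least that
  obtain ⟨c, hcb, hc⟩ : ∃ c < b, #(I × LowC X ℓ a) ≤ #(Iio c) := by
    obtain ⟨e⟩ : Nonempty ((I × LowC X ℓ a) ↪ Iio b) := hIB.le
    obtain ⟨c, hc, h⟩ := hb.bdd (S := range fun y => (e y : K)) (by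
      rintro _ ⟨y, rfl⟩
      exact (e y).2) (Cardinal.mk_range_le.trans_lt hIB)
    refine ⟨c, hc, ?_⟩
    refine Cardinal.mk_le_of_injective (f := fun y => (⟨e y, h _ ⟨y, rfl⟩⟩ : Iio c)) ?_
    intro y y' hy
    exact e.injective (Subtype.ext (congrArg (fun z : Iio c => (z : K)) hy))
  have hE : KClosed (Iio c) (HiC X ℓ a × Tl U X ℓ) := G.closed_hi_tl a c (by
    intro b' hb' hab'
    refine hb'.2 c (hcb.trans_le ?_)
    exact not_lt.1 (hmin b' ⟨hb', hab'⟩))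
  obtain ⟨f, hf⟩ : ∃ f : Iio c → I × LowC X ℓ a, f.Surjective := by
    obtain ⟨e⟩ := hc
    exact ⟨Function.invFun e, Function.invFun_surjective e.injective⟩
  obtain ⟨e', he', n, hn⟩ := (lift_jn (U := U) (X := X) (ℓ := ℓ) a).reduce hE f hf s
    (hiPart a q.1, q.2)
  have hjq : jn a (lowPart a q.1) e' ≤ q :=
    ((lift_jn (U := U) (X := X) (ℓ := ℓ) a).mono (le_refl (lowPart a q.1)) he').trans
      ⟨join_parts a q.1, le_rfl⟩
  refine ⟨jn a (lowPart a q.1) e', hjq, fun i => Subtype.val '' n i, ?_, fun r hr i => ?_⟩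
  · rintro i _ ⟨b, -, rfl⟩
    exact b.2
  · rw [hn _ r hr i]
    constructor
    · intro h r1 hr1
      obtain ⟨r2, hr2, s', ⟨b', hb', hs'⟩, h3⟩ := h r1 hr1
      exact ⟨r2, hr2, r2, ⟨b'.1, ⟨b', hb', rfl⟩, (h3.trans hs').1.trans jn_le_low⟩, le_rfl⟩
    · intro h r1 hr1
      obtain ⟨r2, hr2, s', ⟨_, ⟨b', hb', rfl⟩, hs'⟩, h3⟩ := h r1 hr1
      refine ⟨r2, hr2, r2, ⟨b', hb', ?_⟩, le_rfl⟩
      have h4 : r2 ≤ jn a (lowPart a q.1) e' := (hr2.trans hr1).trans hr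
      exact le_jn (h3.1.trans hs') (h4.1.trans jn_le_hi) h4.2

/-- Names of `K` many truth values reduce to names in the product. -/
theorem Gd.reduce_all {I : Type} [Nonempty I] (hI : #I ≤ #K) (s : I → Set (QQ U X ℓ))
    (q : QQ U X ℓ) :
    ∃ f ≤ q.2, ∃ n : I → Set (Cnd K X ℓ),
      ∀ r : QQ U X ℓ, r.2 ≤ f → ∀ i, (r ∈ meets (s i) ↔ r ∈ meets (up (n i))) := by
  classical
  have hne := G.nonempty
  have hIB : #(I × Cnd K X ℓ) ≤ #K := by
    rw [Cardinal.mk_prod, Cardinal.lift_id, Cardinal.lift_id]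
    exact (mul_le_mul' hI G.card_cnd).trans (Cardinal.mul_eq_self G.inf).le
  obtain ⟨f, hf⟩ := G.exists_enum hIB
  obtain ⟨e', he', n, hn⟩ := (lift_mk (U := U) (X := X) (ℓ := ℓ)).reduce G.closed_tl f hf s q.2
  refine ⟨e', he', n, fun r hr i => ?_⟩
  rw [hn r.1 r ⟨le_rfl, hr⟩ i]
  constructor
  · intro h r1 hr1
    obtain ⟨r2, hr2, s', ⟨b', hb', hs'⟩, h3⟩ := h r1 hr1
    exact ⟨r2, hr2, r2, ⟨b', hb', (h3.trans hs').1⟩, le_rfl⟩
  · intro h r1 hr1
    obtain ⟨r2, hr2, s', ⟨b', hb', hs'⟩, h3⟩ := h r1 hr1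
    exact ⟨r2, hr2, r2, ⟨b', hb', h3.1.trans hs', (hr2.trans hr1).2.trans hr⟩, le_rfl⟩

end

end Pool.Agent.TH760
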